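import Pool.Agent.BoltzM.Coll.Geom

/-!
Archimedes' theorem on the sphere and its consequences.
-/

open MeasureTheory Real Set
open scoped ENNReal RealInnerProductSpace

noncomputable section

namespace Pool.Agent.BoltzM.Coll

variable [Dim]

omit [Dim] in
lemma lintegral_sin_cos (φ : ℝ → ℝ≥0∞) :
    ∫⁻ t in Ioo (-π) π, ENNReal.ofReal (Real.sin t) * φ (Real.cos t)
      = ∫⁻ t in Ioo (-1 : ℝ) 1, φ t := by
  have h1 : Real.cos '' Ioo 0 π = Ioo (-1 : ℝ) 1 := by
    ext x
    constructor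
    · rintro ⟨t, ⟨h0, h1⟩, rfl⟩
      constructor
      · rw [← Real.cos_pi]; exact Real.cos_lt_cos_of_nonneg_of_le_pi h0.le le_rfl h1
      · rw [← Real.cos_zero]; exact Real.cos_lt_cos_of_nonneg_of_le_pi le_rfl h1.le h0
    · rintro ⟨h0, h1⟩
      exact ⟨Real.arccos x, ⟨Real.arccos_pos.2 h1, Real.arccos_lt_pi.2 h0⟩,
        Real.cos_arccos h0.le h1.le⟩
  rw [← h1, lintegral_image_eq_lintegral_abs_deriv_mul measurableSet_Ioo
    (f' := fun t => -Real.sin t) (fun t _ => (Real.hasDerivAt_cos t).hasDerivWithinAt)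
    (Real.injOn_cos.mono Ioo_subset_Icc_self),
    ← lintegral_indicator measurableSet_Ioo, ← lintegral_indicator measurableSet_Ioo]
  refine lintegral_congr fun t => ?_
  by_cases h : t ∈ Ioo 0 π
  · rw [indicator_of_mem h, indicator_of_mem (show t ∈ Ioo (-π) π from
      ⟨by linarith [h.1, Real.pi_pos], h.2⟩), abs_neg,
      abs_of_nonneg (Real.sin_nonneg_of_nonneg_of_le_pi h.1.le h.2.le)]
  · rw [indicator_of_notMem h]
    by_cases h' : t ∈ Ioo (-π) π
    · rw [indicator_of_mem h', ENNReal.ofReal_of_nonpos, zero_mul]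
      have : t ≤ 0 := by
        by_contra h0
        exact h ⟨not_le.1 h0, h'.2⟩
      exact Real.sin_nonpos_of_nonpos_of_neg_pi_le this h'.1.le
    · rw [indicator_of_notMem h']

/-- density of the law of one coordinate on the sphere -/
def dens (t : ℝ) : ℝ := (1 - t ^ 2) ^ (((dd : ℝ) - 3) / 2)

@[fun_prop] lemma measurable_dens : Measurable dens := by
  unfold dens; exact Measurable.pow_const (by fun_prop) _

lemma dens_nonneg {t : ℝ} (h : t ^ 2 ≤ 1) : 0 ≤ dens t := Real.rpow_nonneg (by linarith) _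

lemma dens_le {t : ℝ} (h : t ^ 2 ≤ 1 / 2) : dens t ≤ 2 := by
  have hd : (2 : ℝ) ≤ dd := by exact_mod_cast two_le_dd
  calc dens t ≤ (1 - t ^ 2) ^ (-1 : ℝ) :=
        Real.rpow_le_rpow_of_exponent_ge (by linarith) (by linarith [sq_nonneg t]) (by linarith)
    _ ≤ 2 := by
        rw [Real.rpow_neg_one, inv_le_comm₀ (by linarith) (by norm_num)]
        linarith

lemma le_dens {t : ℝ} (h : t ^ 2 ≤ 1 / 2) : (1 / 2) ^ dd ≤ dens t := by
  have hd : (2 : ℝ) ≤ dd := by exact_mod_cast two_le_dd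
  calc (1 / 2 : ℝ) ^ dd ≤ (1 - t ^ 2) ^ dd := by gcongr; linarith
    _ = (1 - t ^ 2) ^ (dd : ℝ) := (Real.rpow_natCast _ _).symm
    _ ≤ dens t :=
        Real.rpow_le_rpow_of_exponent_ge (by linarith) (by linarith [sq_nonneg t]) (by linarith)

lemma sin_mul_dens {t : ℝ} (h : 0 < Real.sin t) :
    Real.sin t * dens (Real.cos t) = Real.sin t ^ (dd - 2) := by
  have hd := two_le_dd
  rw [dens, ← Real.sin_sq, ← Real.rpow_natCast, ← Real.rpow_mul h.le, mul_comm,
    ← Real.rpow_add_one h.ne', ← Real.rpow_natCast, Nat.cast_sub hd]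
  congr 1; push_cast; ring

/-- Archimedes' theorem -/
theorem archimedes (e : E) (he : ‖e‖ = 1) (φ : ℝ → ℝ≥0∞) (hφ : Measurable φ) :
    ∫⁻ o, φ ⟪e, (o : E)⟫ ∂sph =
      ENNReal.ofReal cS * ∫⁻ t in Ioo (-1 : ℝ) 1, ENNReal.ofReal (dens t) * φ t := by
  have hd := two_le_dd
  let W : ℝ → ℝ≥0∞ := (Ioi (0 : ℝ)).indicator fun s => ENNReal.ofReal (s ^ (dd - 2))
  have hW : Measurable W := Measurable.indicator (by fun_prop) measurableSet_Ioi
  obtain ⟨ι, h0, -, hmp⟩ := exists_slice e he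
  let G : ℝ × ℝ → ℝ≥0∞ := fun p =>
    (Iio (1 : ℝ)).indicator (fun _ => φ (p.1 / √(p.1 ^ 2 + p.2 ^ 2))) (p.1 ^ 2 + p.2 ^ 2)
  have hG : Measurable G := by
    have : G = {p : ℝ × ℝ | p.1 ^ 2 + p.2 ^ 2 < 1}.indicator
        (fun p => φ (p.1 / √(p.1 ^ 2 + p.2 ^ 2))) := by
      funext p; simp [G, indicator]
    rw [this]
    exact (hφ.comp (by fun_prop)).indicator (measurableSet_lt (by fun_prop) (by fun_prop))
  have hm : Measurable fun z : E => φ ⟪e, ‖z‖⁻¹ • z⟫ := by apply hφ.comp; fun_prop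
  rw [lintegral_sph_eq_ball (fun x => φ ⟪e, x⟫) (by apply hφ.comp; fun_prop),
    ← lintegral_indicator measurableSet_ball,
    lintegral_slice hmp _ (hm.indicator measurableSet_ball)]
  have h1 : ∀ (r : ℝ) (y : E2), (Metric.ball (0 : E) 1).indicator
      (fun z : E => φ ⟪e, ‖z‖⁻¹ • z⟫) (r • e + ι y) = G (r, ‖y‖) := by
    intro r y
    have hn := norm_sq_slice he h0 r y
    have hn' : ‖r • e + ι y‖ = √(r ^ 2 + ‖y‖ ^ 2) := by rw [← hn, Real.sqrt_sq (norm_nonneg _)]
    by_cases h : r ^ 2 + ‖y‖ ^ 2 < 1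
    · rw [indicator_of_mem, inner_smul_right, inner_slice he h0, hn']
      · simp only [G]
        rw [indicator_of_mem (show r ^ 2 + ‖y‖ ^ 2 ∈ Iio (1 : ℝ) from h), div_eq_inv_mul]
      · rw [mem_ball_zero_iff, hn', Real.sqrt_lt' one_pos]; simpa using h
    · rw [indicator_of_notMem]
      · simp only [G]
        rw [indicator_of_notMem (show r ^ 2 + ‖y‖ ^ 2 ∉ Iio (1 : ℝ) from h)]
      · rw [mem_ball_zero_iff, hn', Real.sqrt_lt' one_pos]; simpa using h
  simp only [h1]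
  have h2 : ∀ r : ℝ, ∫⁻ y : E2, G (r, ‖y‖) =
      ENNReal.ofReal cS * ∫⁻ s : ℝ, W s * G (r, s) := by
    intro r
    rw [lintegral_radial2 (fun s => G (r, s)) (hG.comp (by fun_prop)),
      ← lintegral_indicator measurableSet_Ioi]
    congr 1
    refine lintegral_congr fun s => ?_
    by_cases hs : 0 < s
    · simp only [W, indicator_of_mem (show s ∈ Ioi (0 : ℝ) from hs)]
    · simp only [W, indicator_of_notMem (show s ∉ Ioi (0 : ℝ) from hs), zero_mul]
  have hG2 : Measurable fun p : ℝ × ℝ => W p.2 * G p :=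
    Measurable.mul (hW.comp measurable_snd) hG
  simp only [h2]
  rw [lintegral_const_mul _ hG2.lintegral_prod_right', ← lintegral_prod _ hG2.aemeasurable,
    ← Measure.volume_eq_prod, ← lintegral_comp_polarCoord_symm, polarCoord_target,
    mul_left_comm]
  congr 1
  have h3 : ∀ p ∈ Ioi (0 : ℝ) ×ˢ Ioo (-π) π,
      ENNReal.ofReal p.1 • (W (polarCoord.symm p).2 * G (polarCoord.symm p)) =
      (Iio (1 : ℝ)).indicator (fun r => ENNReal.ofReal (r ^ (dd - 1))) p.1 *
        (ENNReal.ofReal (Real.sin p.2) *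
          (ENNReal.ofReal (dens (Real.cos p.2)) * φ (Real.cos p.2))) := by
    rintro ⟨R, t⟩ ⟨hR, -⟩
    have hR' : 0 < R := hR
    have hs : (R * Real.cos t) ^ 2 + (R * Real.sin t) ^ 2 = R ^ 2 := by
      linear_combination R ^ 2 * Real.cos_sq_add_sin_sq t
    simp only [polarCoord_symm_apply, G, hs, smul_eq_mul, Real.sqrt_sq hR'.le]
    by_cases h : R < 1
    · rw [indicator_of_mem (show R ^ 2 ∈ Iio (1 : ℝ) from by
        simp only [mem_Iio]; nlinarith), indicator_of_mem (show R ∈ Iio (1 : ℝ) from h),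
        mul_div_cancel_left₀ _ hR'.ne']
      by_cases h0 : 0 < Real.sin t
      · simp only [W, indicator_of_mem (show R * Real.sin t ∈ Ioi (0 : ℝ) from mul_pos hR' h0)]
        rw [← mul_assoc (ENNReal.ofReal (Real.sin t)), ← ENNReal.ofReal_mul h0.le, sin_mul_dens h0,
          ← mul_assoc, ← mul_assoc, ← ENNReal.ofReal_mul hR'.le,
          ← ENNReal.ofReal_mul (by positivity), show dd - 1 = dd - 2 + 1 by omega]
        congr 2; ring
      · have h1 : R * Real.sin t ∉ Ioi (0 : ℝ) := fun h1 => h0 ((mul_pos_iff_of_pos_left hR').1 h1)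
        simp only [W, indicator_of_notMem h1, ENNReal.ofReal_of_nonpos (not_lt.1 h0), zero_mul,
          mul_zero]
    · rw [indicator_of_notMem (show R ^ 2 ∉ Iio (1 : ℝ) from by
        simp only [mem_Iio]; nlinarith), indicator_of_notMem (show R ∉ Iio (1 : ℝ) from h)]
      simp
  rw [setLIntegral_congr_fun (measurableSet_Ioi.prod measurableSet_Ioo) h3,
    Measure.volume_eq_prod, ← Measure.prod_restrict, lintegral_prod_mul
      (g := fun t => ENNReal.ofReal (Real.sin t) *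
        (ENNReal.ofReal (dens (Real.cos t)) * φ (Real.cos t)))
      (Measurable.indicator (by fun_prop) measurableSet_Iio).aemeasurable
      (Measurable.mul (by fun_prop)
        (Measurable.mul (by fun_prop) (hφ.comp (by fun_prop)))).aemeasurable,
    lintegral_sin_cos (fun t => ENNReal.ofReal (dens t) * φ t),
    lintegral_indicator measurableSet_Iio, Measure.restrict_restrict measurableSet_Iio,
    Iio_inter_Ioi, ← mul_assoc, lintegral_pow_Ioo, one_mul]

/-- Archimedes' theorem for an arbitrary nonzero vector -/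
theorem archimedes_vec (u : E) (hu : u ≠ 0) (φ : ℝ → ℝ≥0∞) (hφ : Measurable φ) :
    ∫⁻ o, φ ⟪u, (o : E)⟫ ∂sph = ENNReal.ofReal (cS / ‖u‖) *
      ∫⁻ t in Ioo (-‖u‖) ‖u‖, ENNReal.ofReal (dens (t / ‖u‖)) * φ t := by
  have hn : 0 < ‖u‖ := norm_pos_iff.2 hu
  have hc := cS_pos
  have h := archimedes (‖u‖⁻¹ • u) (by simp [norm_smul, hn.ne']) (fun t => φ (‖u‖ * t))
    (hφ.comp (by fun_prop))
  simp only [inner_smul_left, conj_trivial, mul_inv_cancel_left₀ hn.ne'] at h
  rw [h]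
  have h1 : (fun t => ‖u‖ * t) '' Ioo (-1 : ℝ) 1 = Ioo (-‖u‖) ‖u‖ := by
    rw [image_mul_left_Ioo hn]; simp
  rw [← h1, lintegral_image_eq_lintegral_abs_deriv_mul measurableSet_Ioo
    (f' := fun _ => ‖u‖) (fun t _ => by
      simpa using ((hasDerivAt_id t).const_mul ‖u‖).hasDerivWithinAt)
    (fun a _ b _ hab => mul_left_cancel₀ hn.ne' hab)]
  simp only [mul_div_cancel_left₀ _ hn.ne']
  rw [lintegral_const_mul (f := fun t => ENNReal.ofReal (dens t) * φ (‖u‖ * t)) _
      (Measurable.mul (by fun_prop) (hφ.comp (by fun_prop))), ← mul_assoc, abs_of_pos hn,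
    ← ENNReal.ofReal_mul (by positivity), div_mul_cancel₀ _ hn.ne']

lemma lintegral_dens : ENNReal.ofReal cS * ∫⁻ t in Ioo (-1 : ℝ) 1, ENNReal.ofReal (dens t)
    = ENNReal.ofReal cT := by
  have h := archimedes (EuclideanSpace.single 0 1) (by simp) (fun _ => 1) measurable_const
  simpa [sph_univ] using h.symm

/-- upper bound: the equatorial zone by the integral, the polar caps by a bound -/
theorem arch_le (u : E) (hu : u ≠ 0) (φ : ℝ → ℝ≥0∞) (hφ : Measurable φ) {M : ℝ≥0∞}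
    (hM : ∀ t, ‖u‖ / 2 < |t| → φ t ≤ M) :
    ∫⁻ o, φ ⟪u, (o : E)⟫ ∂sph
      ≤ ENNReal.ofReal (2 * cS / ‖u‖) * (∫⁻ t, φ t) + ENNReal.ofReal cT * M := by
  have hn : 0 < ‖u‖ := norm_pos_iff.2 hu
  have hc := cS_pos
  have hm : Measurable ((Icc (-(‖u‖ / 2)) (‖u‖ / 2)).indicator φ) := hφ.indicator measurableSet_Icc
  calc _ ≤ ∫⁻ o : S2, ((Icc (-(‖u‖ / 2)) (‖u‖ / 2)).indicator φ ⟪u, (o : E)⟫ + M) ∂sph := by
        refine lintegral_mono fun o => ?_
        by_cases h : ⟪u, (o : E)⟫ ∈ Icc (-(‖u‖ / 2)) (‖u‖ / 2)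
        · simp only [indicator_of_mem h]; exact le_self_add
        · exact (hM _ (not_le.1 fun h' => h (abs_le.1 h'))).trans le_add_self
    _ ≤ _ := by
        rw [lintegral_add_right _ measurable_const, lintegral_const, sph_univ, mul_comm M,
          archimedes_vec u hu _ hm, mul_div_assoc, mul_comm 2, ENNReal.ofReal_mul (by positivity),
          mul_assoc, ← lintegral_const_mul _ hφ]
        refine add_le_add (mul_le_mul_right ?_ _) le_rfl
        refine (setLIntegral_le_lintegral _ _).trans (lintegral_mono fun t => ?_)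
        by_cases h : t ∈ Icc (-(‖u‖ / 2)) (‖u‖ / 2)
        · simp only [indicator_of_mem h]
          gcongr
          refine dens_le ?_
          rw [div_pow, div_le_iff₀ (by positivity)]
          nlinarith [h.1, h.2]
        · simp [indicator_of_notMem h]

/-- lower bound on the equatorial zone -/
theorem le_arch (u : E) (hu : u ≠ 0) (φ : ℝ → ℝ≥0∞) (hφ : Measurable φ)
    (h0 : ∀ t, ‖u‖ ^ 2 / 2 < t ^ 2 → φ t = 0) :
    ENNReal.ofReal ((1 / 2) ^ dd * cS / ‖u‖) * ∫⁻ t, φ t ≤ ∫⁻ o, φ ⟪u, (o : E)⟫ ∂sph := by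
  have hn : 0 < ‖u‖ := norm_pos_iff.2 hu
  have hc := cS_pos
  rw [archimedes_vec u hu _ hφ, mul_div_assoc, mul_comm ((1 / 2 : ℝ) ^ dd),
    ENNReal.ofReal_mul (by positivity), mul_assoc, ← lintegral_const_mul _ hφ,
    ← lintegral_indicator measurableSet_Ioo]
  gcongr with t
  by_cases h : ‖u‖ ^ 2 / 2 < t ^ 2
  · simp [h0 t h]
  · rw [indicator_of_mem (show t ∈ Ioo (-‖u‖) ‖u‖ from abs_lt.1
      (abs_lt_of_sq_lt_sq (by nlinarith) hn.le))]
    gcongr
    refine le_dens ?_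
    rw [div_pow, div_le_iff₀ (by positivity)]
    linarith

end Pool.Agent.BoltzM.Coll
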