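import Pool.Agent.BoltzM.Coll.Geom

/-!
Collision algebra and the measure preserving symmetries of the collision measure.
-/

open MeasureTheory Real Set
open scoped ENNReal RealInnerProductSpace

noncomputable section

namespace Pool.Agent.BoltzM.Coll

variable [Dim]

/-- the collision map -/
def coll (p : E × E × S2) : E × E × S2 := (pv p.1 p.2.1 p.2.2, pw p.1 p.2.1 p.2.2, p.2.2)

/-- exchange of the two particles -/
def swp (p : E × E × S2) : E × E × S2 := (p.2.1, p.1, p.2.2)

lemma pv_add_pw (v w o : E) : pv v w o + pw v w o = v + w := by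
  simp [pv, pw]

lemma pv_sub_pw (v w o : E) : pv v w o - pw v w o = (v - w) - (2 * ⟪v - w, o⟫) • o := by
  simp only [pv, pw]; module

lemma pv_swap (v w o : E) : pv w v o = pw v w o := by
  simp only [pv, pw]; rw [← neg_sub v w, inner_neg_left]; simp

lemma pw_swap (v w o : E) : pw w v o = pv v w o := by
  simp only [pv, pw]; rw [← neg_sub v w, inner_neg_left]; simp [sub_eq_add_neg]

lemma inner_pv_sub_pw (v w : E) (o : S2) : ⟪pv v w o - pw v w o, (o : E)⟫ = -⟪v - w, (o : E)⟫ := by
  rw [pv_sub_pw, inner_sub_left, inner_smul_left, inner_coe_self]; simp; ring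

lemma norm_refl (u : E) (o : S2) : ‖u - (2 * ⟪u, (o : E)⟫) • (o : E)‖ = ‖u‖ := by
  have : ‖u - (2 * ⟪u, (o : E)⟫) • (o : E)‖ ^ 2 = ‖u‖ ^ 2 := by
    rw [norm_sub_sq_real, inner_smul_right, norm_smul, norm_coe]; simp [mul_pow]; ring
  exact (sq_eq_sq₀ (norm_nonneg _) (norm_nonneg _)).1 this

lemma norm_pv_sub_pw (v w : E) (o : S2) : ‖pv v w o - pw v w o‖ = ‖v - w‖ := by
  rw [pv_sub_pw, norm_refl]

lemma energy (v w : E) (o : S2) : ‖pv v w o‖ ^ 2 + ‖pw v w o‖ ^ 2 = ‖v‖ ^ 2 + ‖w‖ ^ 2 := by
  simp only [pv, pw]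
  rw [norm_sub_sq_real, norm_add_sq_real, inner_smul_right, inner_smul_right, norm_smul, norm_coe,
    inner_sub_left]
  simp; ring

lemma pv_pv (v w : E) (o : S2) : pv (pv v w o) (pw v w o) o = v := by
  rw [pv, inner_pv_sub_pw, pv]; simp

lemma pw_pw (v w : E) (o : S2) : pw (pv v w o) (pw v w o) o = w := by
  rw [pw, inner_pv_sub_pw, pw]; simp

lemma norm_pv_sub (v w : E) (o : S2) : ‖pv v w o - v‖ = |⟪v - w, (o : E)⟫| := by
  simp [pv, norm_smul]

lemma norm_pw_sub (v w : E) (o : S2) : ‖pw v w o - w‖ = |⟪v - w, (o : E)⟫| := by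
  simp [pw, norm_smul]

lemma abs_inner_le (u : E) (o : S2) : |⟪u, (o : E)⟫| ≤ ‖u‖ := by
  simpa using abs_real_inner_le_norm u (o : E)

lemma coll_coll (p : E × E × S2) : coll (coll p) = p := by
  simp [coll, pv_pv, pw_pw]

lemma swp_swp (p : E × E × S2) : swp (swp p) = p := rfl

lemma sM_pos (v : E) : 0 < sM v := Real.exp_pos _

lemma sM_le_one (v : E) : sM v ≤ 1 := by
  rw [sM, Real.exp_le_one_iff]
  have := sq_nonneg ‖v‖
  linarith

lemma sM_pv_mul (v w : E) (o : S2) : sM (pv v w o) * sM (pw v w o) = sM v * sM w := by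
  simp only [sM, ← Real.exp_add]
  congr 1
  linear_combination (-1 / 4 : ℝ) * energy v w o

@[fun_prop] lemma continuous_sM : Continuous sM := by unfold sM; fun_prop

@[fun_prop] lemma measurable_sM : Measurable sM := continuous_sM.measurable

lemma ker_nonneg (u o : E) : 0 ≤ ker u o := by unfold ker; positivity

lemma ker_neg (u o : E) : ker (-u) o = ker u o := by simp [ker]

lemma ker3_nonneg (p : E × E × S2) : 0 ≤ ker3 p := ker_nonneg _ _

lemma ker3_coll (p : E × E × S2) : ker3 (coll p) = ker3 p := by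
  simp only [ker3, coll, ker, norm_pv_sub_pw, inner_pv_sub_pw, abs_neg]

lemma ker3_swp (p : E × E × S2) : ker3 (swp p) = ker3 p := by
  simp only [ker3, swp]; rw [← ker_neg, neg_sub]

@[fun_prop] lemma Measurable.pv {α : Type*} [MeasurableSpace α] {a b c : α → E}
    (ha : Measurable a) (hb : Measurable b) (hc : Measurable c) :
    Measurable fun x => pv (a x) (b x) (c x) := by unfold Coll.pv; fun_prop

@[fun_prop] lemma Measurable.pw {α : Type*} [MeasurableSpace α] {a b c : α → E}
    (ha : Measurable a) (hb : Measurable b) (hc : Measurable c) :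
    Measurable fun x => pw (a x) (b x) (c x) := by unfold Coll.pw; fun_prop

@[fun_prop] lemma Measurable.ker {α : Type*} [MeasurableSpace α] {a c : α → E}
    (ha : Measurable a) (hc : Measurable c) :
    Measurable fun x => ker (a x) (c x) := by
  unfold Coll.ker
  refine Measurable.mul (Measurable.mul measurable_const ?_) ?_
  · exact Measurable.pow_const (by fun_prop) _
  · exact Measurable.pow_const (by fun_prop) _

@[fun_prop] lemma measurable_ker3 : Measurable ker3 := by unfold ker3; fun_prop

@[fun_prop] lemma measurable_coll : Measurable coll := by unfold coll; fun_prop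

@[fun_prop] lemma measurable_swp : Measurable swp := by unfold swp; fun_prop

lemma Inc_eq (F : E → E → ℝ) (p : E × E × S2) :
    Inc F p = F (coll p).1 (coll p).2.1 - F p.1 p.2.1 := rfl

lemma Inc_coll (F : E → E → ℝ) (p : E × E × S2) : Inc F (coll p) = -Inc F p := by
  simp only [Inc_eq, coll_coll]; ring

lemma Inc_swp (F : E → E → ℝ) (p : E × E × S2) :
    Inc F (swp p) = Inc (fun v w => F w v) p := by
  simp only [Inc, swp]; rw [pv_swap p.1, pw_swap p.1]

lemma measurable_Inc {F : E → E → ℝ} (hF : Measurable fun q : E × E => F q.1 q.2) :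
    Measurable (Inc F) := by
  unfold Inc
  exact (hF.comp (f := fun p : E × E × S2 => (pv p.1 p.2.1 p.2.2, pw p.1 p.2.1 p.2.2))
    (by fun_prop)).sub (hF.comp (f := fun p : E × E × S2 => (p.1, p.2.1)) (by fun_prop))

/-- iterated form of the triple integral -/
theorem lintegral_mu3 (F : E × E × S2 → ℝ≥0∞) (hF : Measurable F) :
    ∫⁻ p, F p ∂mu3 = ∫⁻ v, ∫⁻ w, ∫⁻ o, F (v, w, o) ∂sph := by
  rw [mu3, lintegral_prod _ hF.aemeasurable]
  refine lintegral_congr fun v => ?_
  exact lintegral_prod (fun q => F (v, q)) (hF.comp (by fun_prop)).aemeasurable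

theorem lintegral_mu2 (F : E × S2 → ℝ≥0∞) (hF : Measurable F) :
    ∫⁻ p, F p ∂mu2 = ∫⁻ w, ∫⁻ o, F (w, o) ∂sph := lintegral_prod _ hF.aemeasurable

theorem lintegral_mu2' (F : E × S2 → ℝ≥0∞) (hF : Measurable F) :
    ∫⁻ p, F p ∂mu2 = ∫⁻ o, (∫⁻ w, F (w, o)) ∂sph := lintegral_prod_symm _ hF.aemeasurable

/-- reordering of the three variables -/
def rot (p : S2 × E × E) : E × E × S2 := (p.2.1, p.2.2, p.1)

lemma measurePreserving_rot :
    MeasurePreserving rot (sph.prod ((volume : Measure E).prod (volume : Measure E))) mu3 :=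
  (measurePreserving_prodAssoc (volume : Measure E) (volume : Measure E) sph).comp
    Measure.measurePreserving_swap

lemma measurePreserving_of_rot {T : E × E × S2 → E × E × S2} (hT : Measurable T)
    {T' : S2 × E × E → S2 × E × E}
    (h : MeasurePreserving T' (sph.prod ((volume : Measure E).prod (volume : Measure E)))
      (sph.prod ((volume : Measure E).prod (volume : Measure E))))
    (hc : T ∘ rot = rot ∘ T') : MeasurePreserving T mu3 mu3 := by
  refine ⟨hT, ?_⟩
  conv_lhs => rw [← measurePreserving_rot.map_eq]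
  rw [Measure.map_map hT measurePreserving_rot.measurable, hc]
  exact (measurePreserving_rot.comp h).map_eq

theorem measurePreserving_swp : MeasurePreserving swp mu3 mu3 :=
  measurePreserving_of_rot measurable_swp
    ((MeasurePreserving.id sph).prod Measure.measurePreserving_swap) rfl

/-- the reflection in the plane orthogonal to a unit vector -/
def refl (o : S2) : E ≃ₗᵢ[ℝ] E := (ℝ ∙ (o : E))ᗮ.reflection

lemma refl_apply (o : S2) (u : E) : refl o u = u - (2 * ⟪u, (o : E)⟫) • (o : E) := by
  rw [refl, Submodule.reflection_orthogonal_apply, Submodule.reflection_singleton_apply, norm_coe,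
    real_inner_comm]
  simp [two_smul, two_mul, add_smul]

lemma measurePreserving_coll_fix (o : S2) :
    MeasurePreserving (fun q : E × E => (pv q.1 q.2 o, pw q.1 q.2 o))
      ((volume : Measure E).prod volume) ((volume : Measure E).prod volume) := by
  have h1 : MeasurePreserving (fun q : E × E => (q.1 - q.2, q.2))
      ((volume : Measure E).prod volume) ((volume : Measure E).prod volume) :=
    measurePreserving_sub_prod volume volume
  have h2 : MeasurePreserving (fun q : E × E => (refl o q.1, q.2 + ⟪q.1, (o : E)⟫ • (o : E)))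
      ((volume : Measure E).prod volume) ((volume : Measure E).prod volume) :=
    (refl o).measurePreserving.skew_product (g := fun u w => w + ⟪u, (o : E)⟫ • (o : E))
      (by unfold Function.uncurry; fun_prop)
      (ae_of_all _ fun u => map_add_right_eq_self volume _)
  have h3 : MeasurePreserving (fun q : E × E => (q.1 + q.2, q.2))
      ((volume : Measure E).prod volume) ((volume : Measure E).prod volume) :=
    measurePreserving_add_prod volume volume
  refine (h3.comp (h2.comp h1)).congr (by fun_prop) (ae_of_all _ fun q => Eq.symm ?_)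
  simp only [Function.comp, refl_apply, pv, pw, Prod.mk.injEq, and_true]
  module

theorem measurePreserving_coll : MeasurePreserving coll mu3 mu3 :=
  measurePreserving_of_rot measurable_coll
    ((MeasurePreserving.id sph).skew_product
      (g := fun (o : S2) (q : E × E) => (pv q.1 q.2 o, pw q.1 q.2 o))
      (by unfold Function.uncurry; fun_prop)
      (ae_of_all _ fun o => (measurePreserving_coll_fix o).map_eq)) rfl

theorem lintegral_coll (F : E × E × S2 → ℝ≥0∞) (hF : Measurable F) :
    ∫⁻ p, F (coll p) ∂mu3 = ∫⁻ p, F p ∂mu3 := measurePreserving_coll.lintegral_comp hF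

theorem lintegral_swp (F : E × E × S2 → ℝ≥0∞) (hF : Measurable F) :
    ∫⁻ p, F (swp p) ∂mu3 = ∫⁻ p, F p ∂mu3 := measurePreserving_swp.lintegral_comp hF

/-- the collision map as a measurable equivalence -/
def collE : (E × E × S2) ≃ᵐ (E × E × S2) where
  toFun := coll
  invFun := coll
  left_inv := coll_coll
  right_inv := coll_coll
  measurable_toFun := measurable_coll
  measurable_invFun := measurable_coll

/-- the exchange as a measurable equivalence -/
def swpE : (E × E × S2) ≃ᵐ (E × E × S2) where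
  toFun := swp
  invFun := swp
  left_inv := swp_swp
  right_inv := swp_swp
  measurable_toFun := measurable_swp
  measurable_invFun := measurable_swp

theorem integral_coll (F : E × E × S2 → ℝ) : ∫ p, F (coll p) ∂mu3 = ∫ p, F p ∂mu3 :=
  measurePreserving_coll.integral_comp collE.measurableEmbedding F

theorem integral_swp (F : E × E × S2 → ℝ) : ∫ p, F (swp p) ∂mu3 = ∫ p, F p ∂mu3 :=
  measurePreserving_swp.integral_comp swpE.measurableEmbedding F

theorem Integrable.coll {F : E × E × S2 → ℝ} (h : Integrable F mu3) :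
    Integrable (fun p => F (coll p)) mu3 :=
  (measurePreserving_coll.integrable_comp_emb collE.measurableEmbedding).2 h

theorem Integrable.swp {F : E × E × S2 → ℝ} (h : Integrable F mu3) :
    Integrable (fun p => F (swp p)) mu3 :=
  (measurePreserving_swp.integrable_comp_emb swpE.measurableEmbedding).2 h

/-- Carleman form at a fixed direction: v - v_* = r o + iota y -/
theorem lintegral_carleman (v : E) (o : S2) {ι : E2 →ₗᵢ[ℝ] E}
    (h : MeasurePreserving (fun p : ℝ × E2 => p.1 • (o : E) + ι p.2)) (F : E → ℝ≥0∞)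
    (hF : Measurable F) : ∫⁻ w, F w = ∫⁻ r : ℝ, ∫⁻ y : E2, F (v - (r • (o : E) + ι y)) := by
  rw [← lintegral_sub_left_eq_self F v]
  exact lintegral_slice h (fun u => F (v - u)) (hF.comp (by fun_prop))

lemma pv_carleman (v : E) (o : S2) {ι : E2 →ₗᵢ[ℝ] E} (h0 : ∀ y, ⟪(o : E), ι y⟫ = 0)
    (r : ℝ) (y : E2) : pv v (v - (r • (o : E) + ι y)) o = v - r • (o : E) := by
  rw [pv, sub_sub_cancel, real_inner_comm, inner_slice (norm_coe o) h0]

lemma pw_carleman (v : E) (o : S2) {ι : E2 →ₗᵢ[ℝ] E} (h0 : ∀ y, ⟪(o : E), ι y⟫ = 0)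
    (r : ℝ) (y : E2) : pw v (v - (r • (o : E) + ι y)) o = v - ι y := by
  rw [pw, sub_sub_cancel, real_inner_comm, inner_slice (norm_coe o) h0]; module

lemma ker_carleman (o : S2) {ι : E2 →ₗᵢ[ℝ] E} (h0 : ∀ y, ⟪(o : E), ι y⟫ = 0)
    (r : ℝ) (y : E2) : ker (r • (o : E) + ι y) o
      = 2 * (r ^ 2 + ‖y‖ ^ 2) ^ (3 / 2 : ℝ) * |r| ^ (-(101 / 100) : ℝ) := by
  rw [ker, real_inner_comm, inner_slice (norm_coe o) h0, ← norm_sq_slice (norm_coe o) h0,
    ← Real.rpow_natCast, ← Real.rpow_mul (norm_nonneg _)]
  norm_num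

end Pool.Agent.BoltzM.Coll
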