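import Pool.Agent.BoltzM.Coll.Symm

/-!
The class of nice functions: closure properties and the basic increment bound.
-/

open MeasureTheory Real Set
open scoped ENNReal RealInnerProductSpace

noncomputable section

namespace Pool.Agent.BoltzM.Coll

variable [Dim]

variable {p : ℕ} {K Kg Kh : ℝ} {g h : E → ℝ}

lemma one_le_wt (v : E) (p : ℕ) : (1 : ℝ) ≤ (1 + ‖v‖) ^ p :=
  one_le_pow₀ (by linarith [norm_nonneg v])

lemma wt_pos (v : E) (p : ℕ) : (0 : ℝ) < (1 + ‖v‖) ^ p := by positivity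

lemma Nice.nonneg (H : Nice p K h) : 0 ≤ K := le_trans (by positivity) (H.1 0)

lemma Nice.abs_le (H : Nice p K h) (v : E) : |h v| ≤ K :=
  le_trans (le_mul_of_one_le_left (abs_nonneg _) (one_le_wt v p)) (H.1 v)

lemma Nice.lip (H : Nice p K h) (v z : E) (hz : ‖z‖ ≤ 1) : |h (v + z) - h v| ≤ K * ‖z‖ :=
  le_trans (le_mul_of_one_le_left (abs_nonneg _) (one_le_wt v p)) (H.2 v z hz)

lemma Nice.lip' (H : Nice p K h) (v v' : E) (hz : ‖v' - v‖ ≤ 1) :
    (1 + ‖v‖) ^ p * |h v' - h v| ≤ K * ‖v' - v‖ := by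
  simpa using H.2 v (v' - v) hz

lemma Nice.continuous (H : Nice p K h) : Continuous h := by
  refine continuous_iff_continuousAt.2 fun v => ?_
  rw [ContinuousAt, tendsto_iff_norm_sub_tendsto_zero]
  have h1 : Filter.Tendsto (fun x => K * ‖x - v‖) (nhds v) (nhds 0) := by
    have : Continuous fun x : E => K * ‖x - v‖ := by fun_prop
    simpa using this.tendsto v
  refine squeeze_zero' (Filter.Eventually.of_forall fun _ => norm_nonneg _) ?_ h1
  filter_upwards [Metric.closedBall_mem_nhds v one_pos] with x hx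
  simpa using H.lip v (x - v) (by simpa [dist_eq_norm] using hx)

lemma Nice.measurable (H : Nice p K h) : Measurable h := H.continuous.measurable

lemma Nice.mono {p' : ℕ} (H : Nice p K h) (hp : p' ≤ p) : Nice p' K h := by
  refine ⟨fun v => le_trans ?_ (H.1 v), fun v z hz => le_trans ?_ (H.2 v z hz)⟩ <;>
  · gcongr; linarith [norm_nonneg v]

lemma Nice.mono_const {K' : ℝ} (H : Nice p K h) (hK : K ≤ K') : Nice p K' h :=
  ⟨fun v => (H.1 v).trans hK, fun v z hz => (H.2 v z hz).trans (by gcongr)⟩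

lemma Nice.add (H : Nice p Kg g) (H' : Nice p Kh h) : Nice p (Kg + Kh) (fun v => g v + h v) := by
  refine ⟨fun v => ?_, fun v z hz => ?_⟩
  · have := abs_add_le (g v) (h v)
    have h1 := wt_pos v p
    nlinarith [H.1 v, H'.1 v]
  · have := abs_add_le (g (v + z) - g v) (h (v + z) - h v)
    have h1 := wt_pos v p
    rw [show g (v + z) + h (v + z) - (g v + h v) = g (v + z) - g v + (h (v + z) - h v) by ring]
    nlinarith [H.2 v z hz, H'.2 v z hz]

lemma Nice.const_mul (H : Nice p K h) (c : ℝ) : Nice p (|c| * K) (fun v => c * h v) := by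
  refine ⟨fun v => ?_, fun v z hz => ?_⟩
  · rw [abs_mul, mul_left_comm]; gcongr; exact H.1 v
  · rw [← mul_sub, abs_mul, mul_left_comm, mul_assoc]
    exact mul_le_mul_of_nonneg_left (H.2 v z hz) (abs_nonneg c)

lemma Nice.neg (H : Nice p K h) : Nice p K (fun v => -h v) := by
  simpa using H.const_mul (-1)

lemma Nice.sub (H : Nice p Kg g) (H' : Nice p Kh h) : Nice p (Kg + Kh) (fun v => g v - h v) := by
  simpa [sub_eq_add_neg] using H.add H'.neg

lemma Nice.posPart (H : Nice p K h) : Nice p K (fun v => max (h v) 0) := by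
  refine ⟨fun v => le_trans ?_ (H.1 v), fun v z hz => le_trans ?_ (H.2 v z hz)⟩
  · refine mul_le_mul_of_nonneg_left ?_ (wt_pos v p).le
    simpa using abs_max_sub_max_le_abs (h v) 0 0
  · exact mul_le_mul_of_nonneg_left (abs_max_sub_max_le_abs _ _ _) (wt_pos v p).le

lemma nice_zero : Nice p 0 (fun _ => (0 : ℝ)) := by simp [Nice]

/-- functions with a weighted bound on the value and on the derivative are nice -/
lemma nice_of_fderiv {h : E → ℝ} (hd : Differentiable ℝ h)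
    (h0 : ∀ v, (1 + ‖v‖) ^ p * |h v| ≤ K) (h1 : ∀ v, (1 + ‖v‖) ^ p * ‖fderiv ℝ h v‖ ≤ K) :
    Nice p (2 ^ p * K) h := by
  have hK : 0 ≤ K := le_trans (by positivity) (h0 0)
  refine ⟨fun v => (h0 v).trans (le_mul_of_one_le_left hK (one_le_pow₀ one_le_two)),
    fun v z hz => ?_⟩
  have hb : ∀ x ∈ Metric.closedBall v 1, ‖fderiv ℝ h x‖ ≤ 2 ^ p * K / (1 + ‖v‖) ^ p := by
    intro x hx
    rw [le_div_iff₀ (wt_pos v p)]
    have hx' : ‖v‖ ≤ ‖x‖ + 1 := by
      have : ‖x - v‖ ≤ 1 := by simpa [dist_eq_norm] using hx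
      have := norm_sub_norm_le v x
      rw [norm_sub_rev] at this
      linarith
    calc ‖fderiv ℝ h x‖ * (1 + ‖v‖) ^ p ≤ ‖fderiv ℝ h x‖ * (2 * (1 + ‖x‖)) ^ p := by
          gcongr; linarith [norm_nonneg x]
      _ = 2 ^ p * ((1 + ‖x‖) ^ p * ‖fderiv ℝ h x‖) := by rw [mul_pow]; ring
      _ ≤ _ := by gcongr; exact h1 x
  have := (convex_closedBall v 1).norm_image_sub_le_of_norm_fderiv_le (fun x _ => hd x) hb
    (Metric.mem_closedBall_self zero_le_one) (y := v + z) (by simpa using hz)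
  rw [add_sub_cancel_left, Real.norm_eq_abs, div_mul_eq_mul_div, le_div_iff₀ (wt_pos v p)] at this
  linarith

lemma wt_le_mul (v w : E) : 1 + ‖v - w‖ ≤ (1 + ‖v‖) * (1 + ‖w‖) := by
  nlinarith [norm_sub_le v w, norm_nonneg v, norm_nonneg w]

lemma wt_le_coll (v w : E) (o : S2) : 1 + ‖v‖ ≤ (1 + ‖pv v w o‖) * (1 + ‖pw v w o‖) := by
  have h1 := energy v w o
  have h2 : ‖v‖ ≤ ‖pv v w o‖ + ‖pw v w o‖ := by
    refine (pow_le_pow_iff_left₀ (norm_nonneg _) (by positivity) two_ne_zero).1 ?_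
    nlinarith [norm_nonneg (pv v w o), norm_nonneg (pw v w o), sq_nonneg ‖w‖]
  nlinarith [norm_nonneg (pv v w o), norm_nonneg (pw v w o)]

lemma wt_le_two_mul {v v' : E} (hv : ‖v' - v‖ ≤ 1) : 1 + ‖v‖ ≤ 2 * (1 + ‖v'‖) := by
  have := norm_sub_norm_le v v'
  rw [norm_sub_rev] at this
  linarith [norm_nonneg v']

/-- the increment of g(v_*) h(v) -/
lemma inc_bound (Hg : Nice p Kg g) (Hh : Nice p Kh h) (v w : E) (o : S2) :
    (1 + ‖v‖) ^ p * |g (pw v w o) * h (pv v w o) - g w * h v|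
      ≤ 2 ^ (p + 1) * Kg * Kh * min 1 |⟪v - w, (o : E)⟫| := by
  have hKg := Hg.nonneg
  have hKh := Hh.nonneg
  have h2p : (1 : ℝ) ≤ 2 ^ p := one_le_pow₀ one_le_two
  by_cases hr : |⟪v - w, (o : E)⟫| ≤ 1
  · rw [min_eq_right hr]
    set r := |⟪v - w, (o : E)⟫| with hrd
    have hr0 : 0 ≤ r := abs_nonneg _
    have e1 : ‖pv v w o - v‖ = r := norm_pv_sub v w o
    have e2 : ‖pw v w o - w‖ = r := norm_pw_sub v w o
    have a1 : |g (pw v w o) - g w| ≤ Kg * r := by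
      simpa [e2] using Hg.lip w (pw v w o - w) (e2 ▸ hr)
    have a2 : (1 + ‖v‖) ^ p * |h (pv v w o)| ≤ 2 ^ p * Kh := by
      calc (1 + ‖v‖) ^ p * |h (pv v w o)| ≤ (2 * (1 + ‖pv v w o‖)) ^ p * |h (pv v w o)| := by
            gcongr; exact wt_le_two_mul (e1 ▸ hr)
        _ = 2 ^ p * ((1 + ‖pv v w o‖) ^ p * |h (pv v w o)|) := by rw [mul_pow]; ring
        _ ≤ _ := by gcongr; exact Hh.1 _
    have a3 : (1 + ‖v‖) ^ p * |h (pv v w o) - h v| ≤ Kh * r := by
      simpa [e1] using Hh.lip' v (pv v w o) (e1 ▸ hr)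
    have a4 := Hg.abs_le w
    calc (1 + ‖v‖) ^ p * |g (pw v w o) * h (pv v w o) - g w * h v|
        = (1 + ‖v‖) ^ p * |(g (pw v w o) - g w) * h (pv v w o) + g w * (h (pv v w o) - h v)| := by
          congr 2; ring
      _ ≤ (1 + ‖v‖) ^ p * (|g (pw v w o) - g w| * |h (pv v w o)| + |g w| * |h (pv v w o) - h v|) := by
          gcongr; rw [← abs_mul, ← abs_mul]; exact abs_add_le _ _
      _ = |g (pw v w o) - g w| * ((1 + ‖v‖) ^ p * |h (pv v w o)|)
          + |g w| * ((1 + ‖v‖) ^ p * |h (pv v w o) - h v|) := by ring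
      _ ≤ (Kg * r) * (2 ^ p * Kh) + Kg * (Kh * r) := by gcongr
      _ ≤ (Kg * r) * (2 ^ p * Kh) + 2 ^ p * (Kg * (Kh * r)) := by
          exact add_le_add le_rfl (le_mul_of_one_le_left (by positivity) h2p)
      _ = _ := by ring
  · rw [min_eq_left (not_le.1 hr).le]
    have a1 : (1 + ‖v‖) ^ p * (|g (pw v w o)| * |h (pv v w o)|) ≤ Kg * Kh := by
      calc (1 + ‖v‖) ^ p * (|g (pw v w o)| * |h (pv v w o)|)
          ≤ ((1 + ‖pv v w o‖) * (1 + ‖pw v w o‖)) ^ p * (|g (pw v w o)| * |h (pv v w o)|) := by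
            gcongr; exact wt_le_coll v w o
        _ = ((1 + ‖pw v w o‖) ^ p * |g (pw v w o)|) * ((1 + ‖pv v w o‖) ^ p * |h (pv v w o)|) := by
            rw [mul_pow]; ring
        _ ≤ _ := by gcongr; exacts [Hg.1 _, Hh.1 _]
    have a2 : |g w| * ((1 + ‖v‖) ^ p * |h v|) ≤ Kg * Kh := by gcongr; exacts [Hg.abs_le _, Hh.1 _]
    calc (1 + ‖v‖) ^ p * |g (pw v w o) * h (pv v w o) - g w * h v|
        ≤ (1 + ‖v‖) ^ p * (|g (pw v w o)| * |h (pv v w o)| + |g w| * |h v|) := by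
          gcongr; rw [← abs_mul, ← abs_mul]; exact abs_sub _ _
      _ = (1 + ‖v‖) ^ p * (|g (pw v w o)| * |h (pv v w o)|) + |g w| * ((1 + ‖v‖) ^ p * |h v|) := by
          ring
      _ ≤ Kg * Kh + Kg * Kh := add_le_add a1 a2
      _ = 1 * 2 * Kg * Kh * 1 := by ring
      _ ≤ 2 ^ p * 2 * Kg * Kh * 1 := by gcongr
      _ = _ := by ring

lemma pow_mul_sM_le (N : ℕ) (v : E) : (1 + ‖v‖) ^ N * sM v ≤ Real.exp (N ^ 2) := by
  have h1 : (1 + ‖v‖) ^ N ≤ Real.exp (N * ‖v‖) := by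
    rw [Real.exp_nat_mul]
    gcongr
    linarith [Real.add_one_le_exp ‖v‖]
  calc (1 + ‖v‖) ^ N * sM v ≤ Real.exp (N * ‖v‖) * sM v := by
        gcongr; exact (sM_pos v).le
    _ = Real.exp (N * ‖v‖ + -‖v‖ ^ 2 / 4) := by rw [sM, Real.exp_add]
    _ ≤ Real.exp (N ^ 2) := by
        gcongr
        nlinarith [sq_nonneg ((N : ℝ) - ‖v‖ / 2)]

lemma hasFDerivAt_sM (v : E) : HasFDerivAt sM ((-(sM v) / 2) • innerSL ℝ v) v := by
  have h0 := ((hasStrictFDerivAt_norm_sq v).hasFDerivAt.const_mul (-1 / 4 : ℝ)).exp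
  have h1 : sM = fun x : E => Real.exp (-1 / 4 * ‖x‖ ^ 2) := by
    funext x; rw [sM]; congr 1; ring
  have h2 : ((-(sM v) / 2) • innerSL ℝ v : E →L[ℝ] ℝ) =
      Real.exp (-1 / 4 * ‖v‖ ^ 2) • (-1 / 4 : ℝ) • (2 • innerSL ℝ v) := by
    ext x
    rw [h1]
    simp
    ring
  rw [h2, h1]
  exact h0

lemma nice_sM (p : ℕ) : Nice p (2 ^ p * Real.exp ((p + 1 : ℕ) ^ 2)) sM := by
  refine nice_of_fderiv (fun v => (hasFDerivAt_sM v).differentiableAt) (fun v => ?_) fun v => ?_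
  · rw [abs_of_pos (sM_pos v)]
    refine le_trans ?_ (pow_mul_sM_le (p + 1) v)
    have := sM_pos v
    gcongr
    · linarith [norm_nonneg v]
    · omega
  · rw [(hasFDerivAt_sM v).fderiv, norm_smul, innerSL_apply_norm, Real.norm_eq_abs, abs_div,
      abs_neg, abs_of_pos (sM_pos v)]
    refine le_trans ?_ (pow_mul_sM_le (p + 1) v)
    have := sM_pos v
    have h2 := wt_pos v p
    rw [pow_succ, abs_two]
    nlinarith [mul_pos h2 this, mul_nonneg (mul_pos h2 this).le (norm_nonneg v)]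

end Pool.Agent.BoltzM.Coll
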