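import Pool.Agent.BoltzM.Coll.Nice
import Pool.Agent.BoltzM.Coll.Arch

/-!
Angular integrals, integrability of the collision integrand and the pointwise bound.
-/

open MeasureTheory Real Set
open scoped ENNReal RealInnerProductSpace

noncomputable section

namespace Pool.Agent.BoltzM.Coll

variable [Dim]

omit [Dim] in
lemma lintegral_comp_abs (F : ℝ → ℝ≥0∞) :
    ∫⁻ t : ℝ, F |t| = 2 * ∫⁻ t in Ioi (0 : ℝ), F t := by
  rw [← lintegral_add_compl _ (measurableSet_Ioi (a := (0 : ℝ))), compl_Ioi, two_mul]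
  congr 1
  · exact setLIntegral_congr_fun measurableSet_Ioi fun t ht => by
      simp [abs_of_pos (show (0 : ℝ) < t from ht)]
  · rw [← restrict_Iio_eq_restrict_Iic, ← lintegral_indicator measurableSet_Iio,
      ← lintegral_indicator measurableSet_Ioi, ← lintegral_neg_eq_self]
    refine lintegral_congr fun r => ?_
    by_cases hr : 0 < r
    · rw [indicator_of_mem (by simpa using hr), indicator_of_mem (by simpa using hr)]
      simp [abs_of_pos hr]
    · rw [indicator_of_notMem (by simpa using hr), indicator_of_notMem (by simpa using hr)]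

omit [Dim] in
lemma profile_lt_top :
    ∫⁻ t : ℝ, ENNReal.ofReal (|t| ^ (-(101 / 100) : ℝ) * min 1 |t|) < ∞ := by
  rw [lintegral_comp_abs (fun t => ENNReal.ofReal (t ^ (-(101 / 100) : ℝ) * min 1 t))]
  refine ENNReal.mul_lt_top (by simp) ?_
  rw [← Ioc_union_Ioi_eq_Ioi zero_le_one]
  refine (lintegral_union_le _ _ _).trans_lt (ENNReal.add_lt_top.2 ⟨?_, ?_⟩)
  · have h := (intervalIntegral.intervalIntegrable_rpow' (a := 0) (b := 1) (r := -(1 / 100))
      (by norm_num)).1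
    refine lt_of_le_of_lt (le_of_eq ?_) h.lintegral_lt_top
    refine setLIntegral_congr_fun measurableSet_Ioc fun t ht => ?_
    rw [min_eq_right ht.2, ← Real.rpow_add_one ht.1.ne']
    norm_num
  · have h := integrableOn_Ioi_rpow_of_lt (a := -(101 / 100)) (by norm_num) one_pos
    refine lt_of_le_of_lt (le_of_eq ?_) h.lintegral_lt_top
    refine setLIntegral_congr_fun measurableSet_Ioi fun t ht => ?_
    rw [min_eq_left (le_of_lt ht), mul_one]

omit [Dim] in
lemma profile_le {t : ℝ} (h : t ≠ 0) : |t| ^ (-(101 / 100) : ℝ) * min 1 |t| ≤ |t|⁻¹ := by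
  have h0 : 0 < |t| := abs_pos.2 h
  have h1 : min 1 |t| ≤ |t| ^ (1 / 100 : ℝ) := by
    rcases le_total |t| 1 with h1 | h1
    · refine (min_le_right _ _).trans ?_
      conv_lhs => rw [← Real.rpow_one |t|]
      exact Real.rpow_le_rpow_of_exponent_ge h0 h1 (by norm_num)
    · exact (min_le_left _ _).trans (Real.one_le_rpow h1 (by norm_num))
  calc _ ≤ |t| ^ (-(101 / 100) : ℝ) * |t| ^ (1 / 100 : ℝ) := by gcongr
    _ = _ := by rw [← Real.rpow_add h0, ← Real.rpow_neg_one]; norm_num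

theorem exists_ang : ∃ A : ℝ, 0 < A ∧ ∀ u : E,
    ∫⁻ o, ENNReal.ofReal (ker u o * min 1 |⟪u, (o : E)⟫|) ∂sph
      ≤ ENNReal.ofReal (A * ‖u‖ ^ (2 : ℝ)) := by
  set B := ∫⁻ t : ℝ, ENNReal.ofReal (|t| ^ (-(101 / 100) : ℝ) * min 1 |t|) with hB
  have hB' : B = ENNReal.ofReal B.toReal := (ENNReal.ofReal_toReal profile_lt_top.ne).symm
  have hS := cS_pos
  have hT := cT_pos
  refine ⟨4 * cS * B.toReal + 4 * cT, by positivity, fun u => ?_⟩
  rcases eq_or_ne u 0 with rfl | hu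
  · simp [ker]
  have hn : 0 < ‖u‖ := norm_pos_iff.2 hu
  have h1 : ∀ o : S2, ENNReal.ofReal (ker u o * min 1 |⟪u, (o : E)⟫|) =
      ENNReal.ofReal (2 * ‖u‖ ^ (3 : ℝ)) *
        ENNReal.ofReal (|⟪u, (o : E)⟫| ^ (-(101 / 100) : ℝ) * min 1 |⟪u, (o : E)⟫|) := by
    intro o
    rw [← ENNReal.ofReal_mul (by positivity), ker, mul_assoc]
  simp only [h1]
  rw [lintegral_const_mul _ (by fun_prop)]
  refine (mul_le_mul_right (arch_le u hu
    (fun t => ENNReal.ofReal (|t| ^ (-(101 / 100) : ℝ) * min 1 |t|)) (by fun_prop)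
    (M := ENNReal.ofReal (2 / ‖u‖)) fun t ht => ENNReal.ofReal_le_ofReal ?_) _).trans
    (le_of_eq ?_)
  · have h0 : 0 < |t| := lt_trans (by positivity) ht
    refine (profile_le (abs_pos.1 h0)).trans ?_
    rw [inv_eq_one_div, div_le_div_iff₀ h0 hn]
    linarith
  · rw [← hB, hB', ← ENNReal.ofReal_mul (by positivity), ← ENNReal.ofReal_mul (by positivity),
      ← ENNReal.ofReal_add (by positivity) (by positivity), ← ENNReal.ofReal_mul (by positivity),
      ENNReal.toReal_ofReal ENNReal.toReal_nonneg]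
    congr 1
    rw [show (3 : ℝ) = 2 + 1 by norm_num, Real.rpow_add_one hn.ne']
    field_simp; ring

omit [Dim] in
lemma wt_lintegral_lt_top {X : Type*} [NormedAddCommGroup X] [NormedSpace ℝ X]
    [FiniteDimensional ℝ X] [MeasurableSpace X] [BorelSpace X]
    (μ : Measure X) [μ.IsAddHaarMeasure] (q : ℕ) (hq : Module.finrank ℝ X < q) :
    ∫⁻ w, ENNReal.ofReal (((1 + ‖w‖) ^ q)⁻¹) ∂μ < ∞ := by
  have := finite_integral_one_add_norm (μ := μ) (r := q) (by exact_mod_cast hq)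
  refine lt_of_le_of_lt (le_of_eq (lintegral_congr fun w => ?_)) this
  rw [Real.rpow_neg (by positivity), Real.rpow_natCast]

lemma integrable_wt (q : ℕ) (hq : dd < q) : Integrable fun w : E => ((1 + ‖w‖) ^ q)⁻¹ := by
  refine ⟨(by fun_prop : Measurable _).aestronglyMeasurable, ?_⟩
  rw [hasFiniteIntegral_iff_ofReal (ae_of_all _ fun w => by positivity)]
  exact wt_lintegral_lt_top volume q (by simpa using hq)

lemma rpow_sub_le (v w : E) :
    ‖v - w‖ ^ (2 : ℝ) ≤ (1 + ‖v‖) ^ (2 : ℝ) * (1 + ‖w‖) ^ 29 := by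
  calc ‖v - w‖ ^ (2 : ℝ) ≤ ((1 + ‖v‖) * (1 + ‖w‖)) ^ (2 : ℝ) := by
        gcongr; linarith [wt_le_mul v w]
    _ = (1 + ‖v‖) ^ (2 : ℝ) * (1 + ‖w‖) ^ (2 : ℝ) :=
        Real.mul_rpow (by positivity) (by positivity)
    _ ≤ _ := by
        gcongr
        rw [← Real.rpow_natCast]
        exact Real.rpow_le_rpow_of_exponent_le (by linarith [norm_nonneg w]) (by norm_num)

lemma wt_rpow_le (v : E) : (1 + ‖v‖) ^ (2 : ℝ) ≤ (1 + ‖v‖) ^ 29 := by
  rw [← Real.rpow_natCast]
  exact Real.rpow_le_rpow_of_exponent_le (by linarith [norm_nonneg v]) (by norm_num)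

lemma le_wt_rpow (v : E) : (1 + ‖v‖) ^ 2 ≤ (1 + ‖v‖) ^ (2 : ℝ) := by
  rw [← Real.rpow_natCast]
  exact Real.rpow_le_rpow_of_exponent_le (by linarith [norm_nonneg v]) (by norm_num)

theorem exists_cW : ∃ c : ℝ, 0 < c ∧ ∀ (a : E → ℝ) (Ka : ℝ), Measurable a →
    (∀ w, (1 + ‖w‖) ^ (dd + 30) * |a w| ≤ Ka) → ∀ v : E,
    ∫⁻ q : E × S2, ENNReal.ofReal (ker (v - q.1) q.2 * min 1 |⟪v - q.1, (q.2 : E)⟫| * |a q.1|) ∂mu2
      ≤ ENNReal.ofReal (c * Ka * (1 + ‖v‖) ^ (2 : ℝ)) := by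
  obtain ⟨A, hA, hang⟩ := exists_ang
  set B := ∫⁻ w : E, ENNReal.ofReal (((1 + ‖w‖) ^ (dd + 1))⁻¹) with hB
  have hB' : B = ENNReal.ofReal B.toReal :=
    (ENNReal.ofReal_toReal (wt_lintegral_lt_top volume (dd + 1) (by simp)).ne).symm
  refine ⟨A * B.toReal + 1, by positivity, fun a Ka ha hKa v => ?_⟩
  have hK : 0 ≤ Ka := le_trans (by positivity) (hKa 0)
  rw [lintegral_mu2 _ (by fun_prop)]
  calc _ ≤ ∫⁻ w : E, ENNReal.ofReal (A * Ka * (1 + ‖v‖) ^ (2 : ℝ)) *
        ENNReal.ofReal (((1 + ‖w‖) ^ (dd + 1))⁻¹) := by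
        refine lintegral_mono fun w => ?_
        have h1 : ∀ o : S2, ENNReal.ofReal (ker (v - w) o * min 1 |⟪v - w, (o : E)⟫| * |a w|) =
            ENNReal.ofReal (ker (v - w) o * min 1 |⟪v - w, (o : E)⟫|) * ENNReal.ofReal |a w| :=
          fun o => ENNReal.ofReal_mul' (abs_nonneg _)
        simp only [h1]
        rw [lintegral_mul_const _ (by fun_prop), ← ENNReal.ofReal_mul (by positivity)]
        refine (mul_le_mul_left (hang _) _).trans ?_
        rw [← ENNReal.ofReal_mul (by positivity)]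
        refine ENNReal.ofReal_le_ofReal ?_
        rw [← div_eq_mul_inv, le_div_iff₀ (wt_pos w (dd + 1))]
        calc A * ‖v - w‖ ^ (2 : ℝ) * |a w| * (1 + ‖w‖) ^ (dd + 1)
            ≤ A * ((1 + ‖v‖) ^ (2 : ℝ) * (1 + ‖w‖) ^ 29) * |a w| * (1 + ‖w‖) ^ (dd + 1) := by
              gcongr; exact rpow_sub_le v w
          _ = A * ((1 + ‖w‖) ^ (dd + 30) * |a w|) * (1 + ‖v‖) ^ (2 : ℝ) := by ring
          _ ≤ _ := by gcongr; exact hKa w
    _ = ENNReal.ofReal (A * B.toReal * Ka * (1 + ‖v‖) ^ (2 : ℝ)) := by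
        rw [lintegral_const_mul _ (by fun_prop), ← hB, hB', ← ENNReal.ofReal_mul (by positivity),
          ENNReal.toReal_ofReal ENNReal.toReal_nonneg]
        congr 1; ring
    _ ≤ _ := by gcongr; linarith

/-- the constant of the weighted angular bound -/
def cW : ℝ := exists_cW.choose

lemma cW_pos : 0 < cW := exists_cW.choose_spec.1

theorem lintegral_ker_min_le {a : E → ℝ} {Ka : ℝ} (ha : Measurable a)
    (hKa : ∀ w, (1 + ‖w‖) ^ (dd + 30) * |a w| ≤ Ka) (v : E) :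
    ∫⁻ q : E × S2, ENNReal.ofReal (ker (v - q.1) q.2 * min 1 |⟪v - q.1, (q.2 : E)⟫| * |a q.1|) ∂mu2
      ≤ ENNReal.ofReal (cW * Ka * (1 + ‖v‖) ^ (2 : ℝ)) :=
  exists_cW.choose_spec.2 a Ka ha hKa v

variable {p : ℕ} {Ka Kg Kh Kf : ℝ} {a g h f : E → ℝ}

lemma measurable_triI (ha : Measurable a) (hg : Measurable g) (hh : Measurable h) :
    Measurable fun q : E × E × S2 => triI a g h q.1 q.2 := by
  unfold triI; fun_prop

lemma measurable_triI' (ha : Measurable a) (hg : Measurable g) (hh : Measurable h) (v : E) :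
    Measurable (triI a g h v) := by
  unfold triI; fun_prop

lemma abs_triI_le (Hg : Nice p Kg g) (Hh : Nice p Kh h) (v : E) (q : E × S2) :
    |triI a g h v q| ≤ 2 ^ (p + 1) * Kg * Kh / (1 + ‖v‖) ^ p *
      (ker (v - q.1) q.2 * min 1 |⟪v - q.1, (q.2 : E)⟫| * |a q.1|) := by
  have h1 := inc_bound Hg Hh v q.1 q.2
  rw [← le_div_iff₀' (wt_pos v p)] at h1
  rw [triI, abs_mul, abs_mul, abs_of_nonneg (ker_nonneg _ _)]
  have := ker_nonneg (v - q.1) q.2
  calc _ ≤ ker (v - q.1) q.2 * |a q.1| *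
        (2 ^ (p + 1) * Kg * Kh * min 1 |⟪v - q.1, (q.2 : E)⟫| / (1 + ‖v‖) ^ p) := by gcongr
    _ = _ := by ring

theorem lintegral_triI_le (ha : Measurable a) (hKa : ∀ w, (1 + ‖w‖) ^ (dd + 30) * |a w| ≤ Ka)
    (Hg : Nice p Kg g) (Hh : Nice p Kh h) (v : E) :
    ∫⁻ q, ‖triI a g h v q‖ₑ ∂mu2
      ≤ ENNReal.ofReal (cW * 2 ^ (p + 1) * Ka * Kg * Kh * (1 + ‖v‖) ^ 29 / (1 + ‖v‖) ^ p) := by
  have hg := Hg.nonneg
  have hh := Hh.nonneg
  have hK : 0 ≤ Ka := le_trans (by positivity) (hKa 0)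
  have hc := cW_pos
  calc _ ≤ ∫⁻ q : E × S2, ENNReal.ofReal (2 ^ (p + 1) * Kg * Kh / (1 + ‖v‖) ^ p) *
        ENNReal.ofReal (ker (v - q.1) q.2 * min 1 |⟪v - q.1, (q.2 : E)⟫| * |a q.1|) ∂mu2 := by
        refine lintegral_mono fun q => ?_
        rw [← ENNReal.ofReal_mul (by positivity), Real.enorm_eq_ofReal_abs]
        exact ENNReal.ofReal_le_ofReal (abs_triI_le Hg Hh v q)
    _ ≤ ENNReal.ofReal (2 ^ (p + 1) * Kg * Kh / (1 + ‖v‖) ^ p) *
        ENNReal.ofReal (cW * Ka * (1 + ‖v‖) ^ (2 : ℝ)) := by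
        rw [lintegral_const_mul _ (by fun_prop)]
        gcongr
        exact lintegral_ker_min_le ha hKa v
    _ ≤ _ := by
        rw [← ENNReal.ofReal_mul (by positivity)]
        refine ENNReal.ofReal_le_ofReal ?_
        calc _ ≤ 2 ^ (p + 1) * Kg * Kh / (1 + ‖v‖) ^ p * (cW * Ka * (1 + ‖v‖) ^ 29) := by
              gcongr; exact wt_rpow_le v
          _ = _ := by ring

theorem integrable_triI (ha : Measurable a) (hKa : ∀ w, (1 + ‖w‖) ^ (dd + 30) * |a w| ≤ Ka)
    (Hg : Nice p Kg g) (Hh : Nice p Kh h) (v : E) : Integrable (triI a g h v) mu2 :=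
  ⟨(measurable_triI' ha Hg.measurable Hh.measurable v).aestronglyMeasurable,
    (lintegral_triI_le ha hKa Hg Hh v).trans_lt ENNReal.ofReal_lt_top⟩

/-- pointwise bound for the trilinear operator -/
theorem abs_Tri_le (ha : Measurable a) (hKa : ∀ w, (1 + ‖w‖) ^ (dd + 30) * |a w| ≤ Ka)
    (Hg : Nice p Kg g) (Hh : Nice p Kh h) (v : E) :
    (1 + ‖v‖) ^ p * |Tri a g h v| ≤ cW * 2 ^ (p + 1) * Ka * Kg * Kh * (1 + ‖v‖) ^ 29 := by
  have hg := Hg.nonneg
  have hh := Hh.nonneg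
  have hK : 0 ≤ Ka := le_trans (by positivity) (hKa 0)
  have hc := cW_pos
  rw [← le_div_iff₀' (wt_pos v p), ← ENNReal.ofReal_le_ofReal_iff (by positivity),
    ← Real.enorm_eq_ofReal_abs]
  exact (enorm_integral_le_lintegral_enorm _).trans (lintegral_triI_le ha hKa Hg Hh v)

lemma sM_wt13 (w : E) : (1 + ‖w‖) ^ (dd + 30) * |sM w| ≤ Real.exp ((dd + 30 : ℕ) ^ 2) := by
  rw [abs_of_pos (sM_pos w)]
  exact pow_mul_sM_le _ w

/-- the constant of the pointwise bound for Gamma -/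
def cG : ℝ := cW * Real.exp ((dd + 30 : ℕ) ^ 2)

lemma cG_pos : 0 < cG := mul_pos cW_pos (Real.exp_pos _)

theorem integrable_gamI (Hg : Nice p Kg g) (Hh : Nice p Kh h) (v : E) :
    Integrable (triI sM g h v) mu2 := integrable_triI measurable_sM sM_wt13 Hg Hh v

/-- pointwise bound for Gamma -/
theorem abs_Gam_le (Hg : Nice p Kg g) (Hh : Nice p Kh h) (v : E) :
    (1 + ‖v‖) ^ p * |Gam g h v| ≤ cG * 2 ^ (p + 1) * Kg * Kh * (1 + ‖v‖) ^ 29 := by
  refine (abs_Tri_le measurable_sM sM_wt13 Hg Hh v).trans (le_of_eq ?_)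
  rw [cG]; ring

lemma measurable_Tri (ha : Measurable a) (hg : Measurable g) (hh : Measurable h) :
    Measurable (Tri a g h) :=
  ((measurable_triI ha hg hh).stronglyMeasurable.integral_prod_right'
    (ν := mu2)).measurable

lemma measurable_Gam (hg : Measurable g) (hh : Measurable h) : Measurable (Gam g h) :=
  measurable_Tri measurable_sM hg hh

/-- integrability of the full trilinear integrand -/
theorem integrable_tri3 (ha : Measurable a) (hKa : ∀ w, (1 + ‖w‖) ^ (dd + 30) * |a w| ≤ Ka)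
    (Hg : Nice pN Kg g) (Hh : Nice pN Kh h) (hf : Measurable f)
    (hKf : ∀ v, |f v| ≤ Kf) :
    Integrable (fun q : E × E × S2 => triI a g h q.1 q.2 * f q.1) mu3 := by
  have hm := measurable_triI ha Hg.measurable Hh.measurable
  have hg := Hg.nonneg
  have hh := Hh.nonneg
  have hK : 0 ≤ Ka := le_trans (by positivity) (hKa 0)
  have hK' : 0 ≤ Kf := le_trans (by positivity) (hKf 0)
  have hc := cW_pos
  have hm' : Measurable fun q : E × E × S2 => triI a g h q.1 q.2 * f q.1 :=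
    hm.mul (hf.comp measurable_fst)
  refine ⟨hm'.aestronglyMeasurable, ?_⟩
  rw [HasFiniteIntegral, mu3, lintegral_prod _ hm'.enorm.aemeasurable]
  calc _ ≤ ∫⁻ v : E, ENNReal.ofReal (cW * 2 ^ (pN + 1) * Ka * Kg * Kh * Kf) *
        ENNReal.ofReal (((1 + ‖v‖) ^ (dd + 1))⁻¹) := by
        refine lintegral_mono fun v => ?_
        simp only [enorm_mul]
        rw [lintegral_mul_const _ (measurable_triI' ha Hg.measurable Hh.measurable v).enorm]
        refine (mul_le_mul_left (lintegral_triI_le ha hKa Hg Hh v) _).trans ?_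
        rw [Real.enorm_eq_ofReal_abs, ← ENNReal.ofReal_mul (by positivity),
          ← ENNReal.ofReal_mul (by positivity)]
        refine ENNReal.ofReal_le_ofReal ?_
        have h1 := hKf v
        have h2 : (0 : ℝ) < 1 + ‖v‖ := by positivity
        have h3 : (1 + ‖v‖) ^ 29 / (1 + ‖v‖) ^ pN ≤ ((1 + ‖v‖) ^ (dd + 1))⁻¹ := by
          rw [inv_eq_one_div, div_le_div_iff₀ (by positivity) (by positivity), ← pow_add, one_mul]
          exact pow_le_pow_right₀ (by linarith [norm_nonneg v]) (by unfold pN; omega)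
        calc _ = cW * 2 ^ (pN + 1) * Ka * Kg * Kh * |f v| * ((1 + ‖v‖) ^ 29 / (1 + ‖v‖) ^ pN) := by
              ring
          _ ≤ _ := by gcongr
    _ < ∞ := by
        rw [lintegral_const_mul _ (by fun_prop)]
        exact ENNReal.mul_lt_top ENNReal.ofReal_lt_top (wt_lintegral_lt_top volume (dd + 1) (by simp))

end Pool.Agent.BoltzM.Coll
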