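import Pool.Agent.BoltzM.Coll.Bound

/-!
The symmetrised weak form, collision invariants, the dissipation and the sign lemma.
-/

open MeasureTheory Real Set
open scoped ENNReal RealInnerProductSpace

noncomputable section

namespace Pool.Agent.BoltzM.Coll

variable [Dim]

variable {p : ℕ} {Ka Kg Kg' Kh Kh' Kf : ℝ} {a g g' h h' f : E → ℝ}

/-! linearity -/

lemma Tri_add_left (ha : Measurable a) (hKa : ∀ w, (1 + ‖w‖) ^ (dd + 30) * |a w| ≤ Ka)
    (Hg : Nice p Kg g) (Hg' : Nice p Kg' g') (Hh : Nice p Kh h) (v : E) :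
    Tri a (fun x => g x + g' x) h v = Tri a g h v + Tri a g' h v := by
  rw [Tri, Tri, Tri, ← integral_add (integrable_triI ha hKa Hg Hh v)
    (integrable_triI ha hKa Hg' Hh v)]
  congr 1; funext q; simp only [triI]; ring

lemma Tri_add_right (ha : Measurable a) (hKa : ∀ w, (1 + ‖w‖) ^ (dd + 30) * |a w| ≤ Ka)
    (Hg : Nice p Kg g) (Hh : Nice p Kh h) (Hh' : Nice p Kh' h') (v : E) :
    Tri a g (fun x => h x + h' x) v = Tri a g h v + Tri a g h' v := by
  rw [Tri, Tri, Tri, ← integral_add (integrable_triI ha hKa Hg Hh v)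
    (integrable_triI ha hKa Hg Hh' v)]
  congr 1; funext q; simp only [triI]; ring

lemma Tri_smul_left (a g h : E → ℝ) (c : ℝ) (v : E) :
    Tri a (fun x => c * g x) h v = c * Tri a g h v := by
  rw [Tri, Tri, ← integral_const_mul]
  congr 1; funext q; simp only [triI]; ring

lemma Tri_smul_right (a g h : E → ℝ) (c : ℝ) (v : E) :
    Tri a g (fun x => c * h x) v = c * Tri a g h v := by
  rw [Tri, Tri, ← integral_const_mul]
  congr 1; funext q; simp only [triI]; ring

lemma Tri_smul_weight (a g h : E → ℝ) (c : ℝ) (v : E) :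
    Tri (fun x => c * a x) g h v = c * Tri a g h v := by
  rw [Tri, Tri, ← integral_const_mul]
  congr 1; funext q; simp only [triI]; ring

lemma Gam_add_left (Hg : Nice p Kg g) (Hg' : Nice p Kg' g') (Hh : Nice p Kh h) (v : E) :
    Gam (fun x => g x + g' x) h v = Gam g h v + Gam g' h v :=
  Tri_add_left measurable_sM sM_wt13 Hg Hg' Hh v

lemma Gam_add_right (Hg : Nice p Kg g) (Hh : Nice p Kh h) (Hh' : Nice p Kh' h') (v : E) :
    Gam g (fun x => h x + h' x) v = Gam g h v + Gam g h' v :=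
  Tri_add_right measurable_sM sM_wt13 Hg Hh Hh' v

lemma Gam_smul_left (g h : E → ℝ) (c : ℝ) (v : E) :
    Gam (fun x => c * g x) h v = c * Gam g h v := Tri_smul_left _ _ _ _ _

lemma Gam_smul_right (g h : E → ℝ) (c : ℝ) (v : E) :
    Gam g (fun x => c * h x) v = c * Gam g h v := Tri_smul_right _ _ _ _ _

lemma Gam_sub_left (Hg : Nice p Kg g) (Hg' : Nice p Kg' g') (Hh : Nice p Kh h) (v : E) :
    Gam (fun x => g x - g' x) h v = Gam g h v - Gam g' h v := by
  have h1 := Gam_add_left Hg (Hg'.const_mul (-1)) Hh v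
  rw [Gam_smul_left] at h1
  simpa [sub_eq_add_neg] using h1

lemma Gam_sub_right (Hg : Nice p Kg g) (Hh : Nice p Kh h) (Hh' : Nice p Kh' h') (v : E) :
    Gam g (fun x => h x - h' x) v = Gam g h v - Gam g h' v := by
  have h1 := Gam_add_right Hg Hh (Hh'.const_mul (-1)) v
  rw [Gam_smul_right] at h1
  simpa [sub_eq_add_neg] using h1

lemma Gam_sM_sM (v : E) : Gam sM sM v = 0 := by
  have : triI sM sM sM v = fun _ => 0 := by
    funext q
    rw [triI, mul_comm (sM (pw v q.1 q.2)), sM_pv_mul]; ring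
  simp [Gam, Tri, this]

lemma Gs_comm (g h : E → ℝ) : Gs g h = Gs h g := by
  funext v; simp [Gs, add_comm]

lemma Gs_self (g : E → ℝ) (v : E) : Gs g g v = 2 * Gam g g v := by rw [Gs]; ring

/-- expansion around the Maxwellian -/
lemma Gam_sM_add (Hg : Nice p Kg g) (v : E) :
    Gam (fun x => sM x + g x) (fun x => sM x + g x) v = -Lop g v + Gam g g v := by
  rw [Gam_add_left (nice_sM p) Hg ((nice_sM p).add Hg), Gam_add_right (nice_sM p) (nice_sM p) Hg,
    Gam_add_right Hg (nice_sM p) Hg, Gam_sM_sM, Lop, Gs]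
  ring

/-! weak forms -/

theorem integrable_Gam_mul (Hg : Nice pN Kg g) (Hh : Nice pN Kh h) (Hf : Nice pN Kf f) :
    Integrable fun v => Gam g h v * f v := by
  have := (integrable_tri3 measurable_sM sM_wt13 Hg Hh Hf.measurable Hf.abs_le).integral_prod_left
  exact this.congr (ae_of_all _ fun v => integral_mul_const (f v) (triI sM g h v))

theorem integral_Gam_mul (Hg : Nice pN Kg g) (Hh : Nice pN Kh h) (Hf : Nice pN Kf f) :
    ∫ v, Gam g h v * f v = ∫ q, triI sM g h q.1 q.2 * f q.1 ∂mu3 := by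
  rw [mu3, integral_prod _
    (integrable_tri3 measurable_sM sM_wt13 Hg Hh Hf.measurable Hf.abs_le)]
  simp only [integral_mul_const]; rfl

theorem integrable_Gs_mul (Hg : Nice pN Kg g) (Hh : Nice pN Kh h) (Hf : Nice pN Kf f) :
    Integrable fun v => Gs g h v * f v := by
  refine ((integrable_Gam_mul Hg Hh Hf).add (integrable_Gam_mul Hh Hg Hf)).congr
    (ae_of_all _ fun v => ?_)
  simp only [Gs, add_mul, Pi.add_apply]

theorem integrable_Lop_mul (Hg : Nice pN Kg g) (Hf : Nice pN Kf f) :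
    Integrable fun v => Lop g v * f v := by
  refine (integrable_Gs_mul (nice_sM pN) Hg Hf).neg.congr (ae_of_all _ fun v => ?_)
  simp only [Lop, neg_mul, Pi.neg_apply]

lemma Inc_Sym_swp (g h : E → ℝ) (q : E × E × S2) : Inc (Sym g h) (swp q) = Inc (Sym g h) q := by
  rw [Inc_swp]; congr 1; funext v w; simp only [Sym]; ring

lemma Sym_comm (g h : E → ℝ) : Sym g h = Sym h g := by
  funext v w; simp only [Sym]; ring

lemma integrable_half (Hg : Nice pN Kg g) (Hh : Nice pN Kh h) (Hf : Nice pN Kf f) :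
    Integrable (fun q : E × E × S2 => ker3 q * Inc (Sym g h) q * (f q.1 * sM q.2.1)) mu3 := by
  have h1 := (integrable_tri3 measurable_sM sM_wt13 Hg Hh Hf.measurable Hf.abs_le).add
    (integrable_tri3 measurable_sM sM_wt13 Hh Hg Hf.measurable Hf.abs_le)
  refine h1.congr (ae_of_all _ fun q => ?_)
  simp only [triI, ker3, Inc, Sym, Pi.add_apply]; ring

lemma integrable_one (Hg : Nice pN Kg g) (Hh : Nice pN Kh h) (Hf : Nice pN Kf f) :
    Integrable (fun q : E × E × S2 => ker3 q * Inc (Sym g h) q * Sym f sM q.1 q.2.1) mu3 := by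
  have h1 := integrable_half Hg Hh Hf
  refine (h1.add (Integrable.swp h1)).congr (ae_of_all _ fun q => ?_)
  simp only [Pi.add_apply, ker3_swp, Inc_Sym_swp]
  simp only [Sym, swp]; ring

theorem integrable_sym (Hg : Nice pN Kg g) (Hh : Nice pN Kh h) (Hf : Nice pN Kf f) :
    Integrable (fun q : E × E × S2 => ker3 q * Inc (Sym g h) q * Inc (Sym f sM) q) mu3 := by
  have h1 := integrable_one Hg Hh Hf
  refine (h1.add (Integrable.coll h1)).neg.congr (ae_of_all _ fun q => ?_)
  simp only [Pi.add_apply, Pi.neg_apply, ker3_coll, Inc_coll, Inc_eq (Sym f sM)]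
  ring

/-- C1: the symmetrised weak form -/
theorem integral_Gs_mul (Hg : Nice pN Kg g) (Hh : Nice pN Kh h) (Hf : Nice pN Kf f) :
    ∫ v, Gs g h v * f v
      = -(1 / 4) * ∫ q, ker3 q * Inc (Sym g h) q * Inc (Sym f sM) q ∂mu3 := by
  have h1 : ∫ v, Gs g h v * f v
      = ∫ q : E × E × S2, ker3 q * Inc (Sym g h) q * (f q.1 * sM q.2.1) ∂mu3 := by
    simp only [Gs, add_mul]
    rw [integral_add (integrable_Gam_mul Hg Hh Hf) (integrable_Gam_mul Hh Hg Hf),
      integral_Gam_mul Hg Hh Hf, integral_Gam_mul Hh Hg Hf, ← integral_add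
      (integrable_tri3 measurable_sM sM_wt13 Hg Hh Hf.measurable Hf.abs_le)
      (integrable_tri3 measurable_sM sM_wt13 Hh Hg Hf.measurable Hf.abs_le)]
    congr 1; funext q
    simp only [triI, ker3, Inc, Sym]; ring
  have h2 : ∫ q : E × E × S2, ker3 q * Inc (Sym g h) q * Sym f sM q.1 q.2.1 ∂mu3
      = 2 * ∫ q : E × E × S2, ker3 q * Inc (Sym g h) q * (f q.1 * sM q.2.1) ∂mu3 := by
    have h0 := integrable_half Hg Hh Hf
    rw [two_mul]
    nth_rewrite 2 [← integral_swp]
    rw [← integral_add (Integrable.swp h0) h0]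
    congr 1; funext q
    simp only [ker3_swp, Inc_Sym_swp]
    simp only [Sym, swp]; ring
  have h3 : ∫ q, ker3 q * Inc (Sym g h) q * Inc (Sym f sM) q ∂mu3
      = -(2 * ∫ q : E × E × S2, ker3 q * Inc (Sym g h) q * Sym f sM q.1 q.2.1 ∂mu3) := by
    have h0 := integrable_one Hg Hh Hf
    rw [two_mul]
    nth_rewrite 2 [← integral_coll]
    rw [← integral_add (Integrable.coll h0) h0, ← integral_neg]
    congr 1; funext q
    simp only [ker3_coll, Inc_coll, Inc_eq (Sym f sM)]
    ring
  rw [h1, h3, h2]; ring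

theorem integral_Lop_mul (Hg : Nice pN Kg g) (Hf : Nice pN Kf f) :
    ∫ v, Lop g v * f v
      = (1 / 4) * ∫ q, ker3 q * Inc (Sym g sM) q * Inc (Sym f sM) q ∂mu3 := by
  simp only [Lop, neg_mul]
  rw [integral_neg, integral_Gs_mul (nice_sM pN) Hg Hf, Sym_comm sM g]; ring

/-- the linearised operator is symmetric -/
theorem integral_Lop_symm (Hg : Nice pN Kg g) (Hf : Nice pN Kf f) :
    ∫ v, Lop g v * f v = ∫ v, Lop f v * g v := by
  rw [integral_Lop_mul Hg Hf, integral_Lop_mul Hf Hg]
  congr 2; funext q; ring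

lemma DL_eq (Hf : Nice pN Kf f) :
    DL f = ENNReal.ofReal (∫ q, ker3 q * Inc (Sym f sM) q * Inc (Sym f sM) q ∂mu3) := by
  rw [ofReal_integral_eq_lintegral_ofReal (integrable_sym Hf (nice_sM pN) Hf)
    (ae_of_all _ fun q => by
      have := ker3_nonneg q
      simp only [Pi.zero_apply]
      rw [mul_assoc]; exact mul_nonneg this (mul_self_nonneg _)), DL]
  congr 1; funext q; congr 1; ring

theorem DL_lt_top (Hf : Nice pN Kf f) : DL f < ∞ := by
  rw [DL_eq Hf]; exact ENNReal.ofReal_lt_top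

lemma Dis_nonneg (f : E → ℝ) : 0 ≤ Dis f := by unfold Dis; positivity

theorem DL_eq_ofReal (Hf : Nice pN Kf f) : DL f = ENNReal.ofReal (4 * Dis f) := by
  rw [Dis, mul_div_cancel₀ _ (by norm_num), ENNReal.ofReal_toReal (DL_lt_top Hf).ne]

/-- the dissipation is the quadratic form of the linearised operator -/
theorem Dis_eq (Hf : Nice pN Kf f) : Dis f = ∫ v, Lop f v * f v := by
  rw [integral_Lop_mul Hf Hf, Dis, DL_eq Hf, ENNReal.toReal_ofReal (integral_nonneg fun q => by
      have := ker3_nonneg q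
      simp only [Pi.zero_apply]
      rw [mul_assoc]; exact mul_nonneg this (mul_self_nonneg _))]
  ring

/-- functions phi sM with phi(v) + phi(w) conserved are collision invariants -/
theorem integral_Gs_mul_inv (Hg : Nice pN Kg g) (Hh : Nice pN Kh h) {φ : E → ℝ}
    (Hf : Nice pN Kf fun v => φ v * sM v)
    (hφ : ∀ v w (o : S2), φ (pv v w o) + φ (pw v w o) = φ v + φ w) :
    ∫ v, Gs g h v * (φ v * sM v) = 0 := by
  rw [integral_Gs_mul Hg Hh Hf]
  have : ∀ q, Inc (Sym (fun v => φ v * sM v) sM) q = 0 := by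
    intro q
    simp only [Inc, Sym]
    have h1 := sM_pv_mul q.1 q.2.1 q.2.2
    have h2 := hφ q.1 q.2.1 q.2.2
    linear_combination (φ (pv q.1 q.2.1 q.2.2) + φ (pw q.1 q.2.1 q.2.2)) * h1
      + sM q.1 * sM q.2.1 * h2
  simp [this]

/-- L kills the collision invariants -/
theorem Lop_inv {φ : E → ℝ} (Hf : Nice p Kf fun v => φ v * sM v)
    (hφ : ∀ v w (o : S2), φ (pv v w o) + φ (pw v w o) = φ v + φ w) (v : E) :
    Lop (fun v => φ v * sM v) v = 0 := by
  rw [Lop, Gs, Gam, Gam, Tri, Tri, ← integral_add (integrable_gamI (nice_sM p) Hf v)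
    (integrable_gamI Hf (nice_sM p) v), neg_eq_zero]
  have : ∀ q, triI sM sM (fun v => φ v * sM v) v q + triI sM (fun v => φ v * sM v) sM v q = 0 := by
    intro q
    simp only [triI]
    have h1 := sM_pv_mul v q.1 q.2
    have h2 := hφ v q.1 q.2
    linear_combination ker (v - q.1) q.2 * sM q.1 * ((φ (pv v q.1 q.2) + φ (pw v q.1 q.2)) * h1
      + sM v * sM q.1 * h2)
  simp [this]

lemma inv_coord (i : Ix) (v w : E) (o : S2) : pv v w o i + pw v w o i = v i + w i := by
  have := congrArg (fun x : E => x i) (pv_add_pw v w o)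
  simpa using this

/-- sign lemma: the collision term of the positive part tested with the negative part -/
theorem integral_Gam_posPart_nonneg {G : E → ℝ} {K : ℝ} (HG : Nice pN K G) :
    0 ≤ ∫ v, Gam (fun x => max (G x) 0) (fun x => max (G x) 0) v * max (-G v) 0 := by
  rw [integral_Gam_mul HG.posPart HG.posPart HG.neg.posPart]
  refine integral_nonneg fun q => ?_
  have h0 : max (G q.1) 0 * max (-G q.1) 0 = 0 := by
    rcases le_total (G q.1) 0 with h | h
    · rw [max_eq_right h, zero_mul]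
    · rw [max_eq_right (neg_nonpos.2 h), mul_zero]
  have h1 := ker_nonneg (q.1 - q.2.1) q.2.2
  have h2 := sM_pos q.2.1
  have h3 : triI sM (fun x => max (G x) 0) (fun x => max (G x) 0) q.1 q.2 * max (-G q.1) 0 =
      ker (q.1 - q.2.1) q.2.2 * sM q.2.1 * (max (G (pw q.1 q.2.1 q.2.2)) 0 *
        max (G (pv q.1 q.2.1 q.2.2)) 0) * max (-G q.1) 0 := by
    simp only [triI]
    linear_combination (-(ker (q.1 - q.2.1) q.2.2 * sM q.2.1 * max (G q.2.1) 0)) * h0
  simp only [Pi.zero_apply]
  rw [h3]; positivity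

/-- the inequality behind positivity: G = sM + g, n = negative part of G -/
theorem neg_integral_Gam_negPart_le (Hg : Nice pN Kg g) {n : E → ℝ}
    (hn : n = fun v => max (-(sM v + g v)) 0) :
    -∫ v, Gam (fun x => sM x + g x) (fun x => sM x + g x) v * n v
      ≤ -Dis n + (∫ v, Gs n g v * n v) + (1 / 2) * ∫ v, Gs n n v * n v := by
  have HG := (nice_sM pN).add Hg
  have Hn : Nice pN _ n := hn ▸ HG.neg.posPart
  have h0 := integral_Gam_posPart_nonneg HG
  have e1 : (fun x => max (sM x + g x) 0) = fun x => (sM x + g x) + n x := by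
    funext x; rw [hn]
    rcases le_total (sM x + g x) 0 with h | h
    · simp only; rw [max_eq_right h, max_eq_left (neg_nonneg.2 h)]; ring
    · simp only; rw [max_eq_left h, max_eq_right (neg_nonpos.2 h)]; ring
  have e2 : ∀ v, max (-(sM v + g v)) 0 = n v := fun v => by rw [hn]
  simp only [e1, e2] at h0
  have e3 : ∀ v, Gam (fun x => (sM x + g x) + n x) (fun x => (sM x + g x) + n x) v * n v =
      Gam (fun x => sM x + g x) (fun x => sM x + g x) v * n v +
        (-(Lop n v * n v) + Gs n g v * n v + (1 / 2) * (Gs n n v * n v)) := by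
    intro v
    rw [Gam_add_left HG Hn (HG.add Hn), Gam_add_right HG HG Hn, Gam_add_right Hn HG Hn,
      Gam_add_left (nice_sM pN) Hg Hn, Gam_add_right Hn (nice_sM pN) Hg, Lop, Gs, Gs, Gs]
    ring
  simp only [e3] at h0
  have i1 : Integrable fun v => -(Lop n v * n v) := (integrable_Lop_mul Hn Hn).neg
  have i2 := integrable_Gs_mul Hn Hg Hn
  have i3 := (integrable_Gs_mul Hn Hn Hn).const_mul (1 / 2)
  have i12 : Integrable fun v => -(Lop n v * n v) + Gs n g v * n v := i1.add i2
  have i123 : Integrable fun v => -(Lop n v * n v) + Gs n g v * n v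
      + 1 / 2 * (Gs n n v * n v) := i12.add i3
  rw [integral_add (integrable_Gam_mul HG HG Hn) i123,
    integral_add i12 i3, integral_add i1 i2, integral_neg, integral_const_mul,
    ← Dis_eq Hn] at h0
  linarith

end Pool.Agent.BoltzM.Coll
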