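import Pool.Agent.BoltzM.Coll.One
import Pool.Agent.BoltzM.M6.Final

/-!
The passage to the physical variables, unconditional form.
-/

namespace Pool.Agent.BoltzM.Coll

variable [Dim]

theorem kerStmt : KerStmt := M6.nonCutoff_B8

theorem finalStmt : FinalStmt := M6.final_of triOne

end Pool.Agent.BoltzM.Coll
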