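import Pool.Agent.BoltzM.Coll.Schw
import Pool.Agent.BoltzM.Coll.Tri
import Pool.Agent.BoltzM.Calc.VSob

/-!
The one-sided operator: trilinear estimate and the estimate in which only the weighted supremum of
`sM * φ` multiplies the dissipation.
-/

set_option autoImplicit false

open MeasureTheory Real Set Pool.Agent.BoltzM.BoltzC
open scoped ENNReal RealInnerProductSpace

noncomputable section

namespace Pool.Agent.BoltzM.Coll

variable [Dim]

variable {K Kf Kh : ℝ} {φ f h : E → ℝ}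

/-- the weak form of the one-sided operator -/
theorem integral_Gam_sym (Hφ : Nice pN K φ) (Hf : Nice pN Kf f) (Hh : Nice pN Kh h) :
    ∫ v, Gam φ f v * h v = -(1 / 2) * ∫ q, ker3 q * Inc (fun v w => f v * φ w) q *
      Inc (fun v w => h v * sM w) q ∂mu3 := by
  have h0 := integrable_tri3 measurable_sM sM_wt13 Hφ Hf Hh.measurable Hh.abs_le
  have h1 := integral_coll fun q : E × E × S2 => triI sM φ f q.1 q.2 * h q.1
  have h2 : ∫ q, ker3 q * Inc (fun v w => f v * φ w) q * Inc (fun v w => h v * sM w) q ∂mu3 =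
      -((∫ q : E × E × S2, triI sM φ f q.1 q.2 * h q.1 ∂mu3) +
        ∫ q, triI sM φ f (coll q).1 (coll q).2 * h (coll q).1 ∂mu3) := by
    rw [← integral_add h0 (Integrable.coll h0), ← integral_neg]
    congr 1
    funext q
    have e := ker3_coll q
    simp only [ker3, coll] at e
    simp only [triI, ker3, Inc, coll, pv_pv, pw_pw, e]
    ring
  rw [integral_Gam_mul Hφ Hf Hh, h2, h1]
  ring

theorem tri1_of (h3 : C3Stmt) : ∃ C : ℝ, 0 < C ∧ ∀ (φ f h : E → ℝ) (K Kf Kh : ℝ), Nice pN K φ →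
    Nice pN Kf f → Nice pN Kh h →
    |∫ v, Gam φ f v * h v| ≤ C * K * √(Dis f + ∫ v, f v ^ 2) * √(Dis h + ∫ v, h v ^ 2) := by
  obtain ⟨C, hC, h3⟩ := NL_le h3
  obtain ⟨C2, hC2, h2⟩ := c2
  obtain ⟨Ks, HS⟩ : ∃ Ks, Nice pN Ks sM := ⟨_, nice_sM pN⟩
  have hKs := HS.nonneg
  refine ⟨C2 * C * (Ks + 1), by positivity, fun φ f h K Kf Kh Hφ Hf Hh => ?_⟩
  have key : ∀ (g a : E → ℝ) (Kg Ka : ℝ), Nice pN Kg g → Nice pN Ka a →
      ∫⁻ q, ENNReal.ofReal (ker3 q * Inc (fun v w => g v * a w) q ^ 2) ∂mu3 ≤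
        ENNReal.ofReal (C2 * C * Ka ^ 2 * (Dis g + ∫ v, g v ^ 2)) := by
    intro g a Kg Ka Hg Ha
    refine (h2 g a Ka Hg.measurable Ha).trans ((mul_le_mul_right (h3 g Kg Hg) _).trans ?_)
    rw [← ENNReal.ofReal_mul (by positivity)]
    exact le_of_eq (by congr 1; ring)
  have a1 : 0 ≤ Dis f + ∫ v, f v ^ 2 :=
    add_nonneg (Dis_nonneg f) (integral_nonneg fun _ => sq_nonneg _)
  have a2 : 0 ≤ Dis h + ∫ v, h v ^ 2 :=
    add_nonneg (Dis_nonneg h) (integral_nonneg fun _ => sq_nonneg _)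
  have a4 := Hφ.nonneg
  have mφ := Hφ.measurable
  have mh := Hh.measurable
  have mf := Hf.measurable
  have h4 := abs_integral_le_sqrt (μ := mu3) measurable_ker3
    (measurable_Inc (F := fun v w => f v * φ w) (by fun_prop))
    (measurable_Inc (F := fun v w => h v * sM w) (by fun_prop)) ker3_nonneg (by positivity)
    (by positivity) (key f φ _ _ Hf Hφ) (key h sM _ _ Hh HS)
  rw [Real.sqrt_mul (by positivity), Real.sqrt_mul (by positivity), Real.sqrt_sq a4,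
    Real.sqrt_mul (by positivity) (Dis h + _), Real.sqrt_mul (by positivity) (Ks ^ 2),
    Real.sqrt_sq hKs] at h4
  rw [integral_Gam_sym Hφ Hf Hh, abs_mul, abs_neg, abs_of_pos (by norm_num)]
  have h5 := Real.mul_self_sqrt (show 0 ≤ C2 * C by positivity)
  have h6 : 0 ≤ C2 * C * K * √(Dis f + ∫ v, f v ^ 2) * √(Dis h + ∫ v, h v ^ 2) := by positivity
  have h7 : √(C2 * C) * K * √(Dis f + ∫ v, f v ^ 2) * (√(C2 * C) * Ks * √(Dis h + ∫ v, h v ^ 2)) =
      Ks * (C2 * C * K * √(Dis f + ∫ v, f v ^ 2) * √(Dis h + ∫ v, h v ^ 2)) := by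
    linear_combination (Ks * K * √(Dis f + ∫ v, f v ^ 2) * √(Dis h + ∫ v, h v ^ 2)) * h5
  rw [h7] at h4
  nlinarith [mul_nonneg hKs h6]

lemma abs_mul_le_b0 {x y A B : ℝ} {w : E} (hx : (1 + ‖w‖) ^ pN * |x| ≤ A)
    (hy : (1 + ‖w‖) ^ pN * |y| ≤ B) : |x * y| ≤ A * B * b0 w := by
  rw [b0, ← div_eq_mul_inv, le_div_iff₀ (wt_pos w _)]
  calc |x * y| * (1 + ‖w‖) ^ (2 * pN) = ((1 + ‖w‖) ^ pN * |x|) * ((1 + ‖w‖) ^ pN * |y|) := by
        rw [abs_mul]; ring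
    _ ≤ A * B := mul_le_mul hx hy (by positivity) (le_trans (by positivity) hx)

omit [Dim] in
lemma near_alg {a a' s s' f f' h h' e D : ℝ} (h1 : |s * a| ≤ e) (h2 : |a * (s' - s)| ≤ D)
    (h3 : |s * (a' - a)| ≤ D) (h4 : |(a' - a) * (s' - s)| ≤ D) :
    |(f' * a' - f * a) * (h' * s' - h * s)| ≤
      e * ((f' - f) ^ 2 + (h' - h) ^ 2) + 2 * D * (f ^ 2 + h ^ 2 + f' ^ 2 + h' ^ 2) := by
  have k : ∀ x c X Y : ℝ, |x| ≤ c → |X| ≤ Y → |x * X| ≤ c * Y := fun x c X Y hx hX => by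
    rw [abs_mul]; exact mul_le_mul hx hX (abs_nonneg _) ((abs_nonneg _).trans hx)
  have b1 := k _ _ ((f' - f) * (h' - h)) ((f' - f) ^ 2 + (h' - h) ^ 2) h1 (abs_le.2
    ⟨by nlinarith [sq_nonneg (f' - f + (h' - h))], by nlinarith [sq_nonneg (f' - f - (h' - h))]⟩)
  have b2 := k _ _ ((f' - f) * h') ((f ^ 2 + f' ^ 2) / 2 + h' ^ 2) h2 (abs_le.2
    ⟨by nlinarith [sq_nonneg (f' + h'), sq_nonneg (f - h')],
      by nlinarith [sq_nonneg (f' - h'), sq_nonneg (f + h')]⟩)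
  have b3 := k _ _ (f' * (h' - h)) ((h ^ 2 + h' ^ 2) / 2 + f' ^ 2) h3 (abs_le.2
    ⟨by nlinarith [sq_nonneg (f' + h'), sq_nonneg (f' - h)],
      by nlinarith [sq_nonneg (f' - h'), sq_nonneg (f' + h)]⟩)
  have b4 := k _ _ (f' * h') ((f' ^ 2 + h' ^ 2) / 2) h4 (abs_le.2
    ⟨by nlinarith [sq_nonneg (f' + h')], by nlinarith [sq_nonneg (f' - h')]⟩)
  have e : (f' * a' - f * a) * (h' * s' - h * s) = s * a * ((f' - f) * (h' - h)) +
      a * (s' - s) * ((f' - f) * h') + s * (a' - a) * (f' * (h' - h)) +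
      (a' - a) * (s' - s) * (f' * h') := by ring
  have hD : 0 ≤ D := (abs_nonneg _).trans h2
  rw [e, abs_le]
  have c1 := abs_le.1 b1
  have c2 := abs_le.1 b2
  have c3 := abs_le.1 b3
  have c4 := abs_le.1 b4
  constructor <;> nlinarith [mul_nonneg hD (sq_nonneg f), mul_nonneg hD (sq_nonneg h)]

omit [Dim] in
lemma far_alg {a a' s s' f f' h h' D B B' : ℝ} (hD : 0 ≤ D) (h1 : |a * s| ≤ D * B)
    (h2 : |a' * s'| ≤ D * B') (h3 : (a * s') ^ 2 ≤ D ^ 2 * (B * B'))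
    (h4 : (a' * s) ^ 2 ≤ D ^ 2 * (B * B')) (hB : 0 ≤ B) (hB' : 0 ≤ B') :
    |(f' * a' - f * a) * (h' * s' - h * s)| ≤
      D * (B * (f ^ 2 + h ^ 2) + B' * (f' ^ 2 + h' ^ 2)) := by
  have k : ∀ x c X Y : ℝ, |x| ≤ c → |x * (X * Y)| ≤ c * ((X ^ 2 + Y ^ 2) / 2) :=
    fun x c X Y hx => by
      rw [abs_mul]
      exact mul_le_mul hx (abs_le.2 ⟨by nlinarith [sq_nonneg (X + Y)],
        by nlinarith [sq_nonneg (X - Y)]⟩) (abs_nonneg _) ((abs_nonneg _).trans hx)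
  have k2 : ∀ x X Y : ℝ, x ^ 2 ≤ D ^ 2 * (B * B') →
      |x * (X * Y)| ≤ D * ((B * X ^ 2 + B' * Y ^ 2) / 2) := fun x X Y hx => by
    refine abs_le_of_sq_le_sq ?_ (by positivity)
    have h5 := mul_le_mul_of_nonneg_right hx (sq_nonneg (X * Y))
    have h6 := mul_nonneg (sq_nonneg D) (sq_nonneg (B * X ^ 2 - B' * Y ^ 2))
    nlinarith
  have c1 := abs_le.1 (k _ _ f h h1)
  have c2 := abs_le.1 (k _ _ f' h' h2)
  have c3 := abs_le.1 (k2 _ f h' h3)
  have c4 := abs_le.1 (k2 _ h f' h4)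
  rw [abs_le]
  constructor <;> nlinarith

lemma gd_point {e Ks : ℝ} (Hφ : Nice pN K φ) (HS : Nice pN Ks sM)
    (he : ∀ w, (1 + ‖w‖) ^ (2 * pN) * |sM w * φ w| ≤ e) (f h : E → ℝ) (p : E × E × S2) :
    |ker3 p * Inc (fun v w => f v * φ w) p * Inc (fun v w => h v * sM w) p| ≤
      e * (T2 f p + T2 h p) + 2 * 4 ^ pN * (K * Ks) *
        (T1 f p + T1 h p + T1 f (coll p) + T1 h (coll p)) := by
  obtain ⟨v, w, o⟩ := p
  have hk := ker3_nonneg (v, w, o)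
  have e1 : ∀ g : E → ℝ, T1 g (coll (v, w, o)) = ker3 (v, w, o) * min 1 |⟪v - w, (o : E)⟫| *
      b0 (pw v w o) * g (pv v w o) ^ 2 := fun g => by
    rw [T1, ker3_coll]
    simp only [coll, inner_pv_sub_pw, abs_neg, abs_of_pos (b0_pos _)]
  have e2 : ∀ g : E → ℝ, T1 g (v, w, o) =
      ker3 (v, w, o) * min 1 |⟪v - w, (o : E)⟫| * b0 w * g v ^ 2 := fun g => by
    simp only [T1, abs_of_pos (b0_pos _)]
  have hKK := mul_nonneg Hφ.nonneg HS.nonneg
  have h4 : (1 : ℝ) ≤ 4 ^ pN := one_le_pow₀ (by norm_num)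
  rw [e1, e1, e2, e2, T2, T2, mul_assoc, abs_mul, abs_of_nonneg hk]
  simp only [Inc]
  set k := ker3 (v, w, o)
  set r := |⟪v - w, (o : E)⟫| with hr
  have hb := b0_pos w
  have hb' := b0_pos (pw v w o)
  by_cases hr1 : r < 1
  · rw [if_pos hr1, if_pos hr1, min_eq_right hr1.le]
    have hr0 : 0 ≤ r := abs_nonneg _
    have e3 : ‖pw v w o - w‖ = r := norm_pw_sub v w o
    have l1 := Hφ.lip' w (pw v w o) (e3 ▸ hr1.le)
    have l2 := HS.lip' w (pw v w o) (e3 ▸ hr1.le)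
    rw [e3] at l1 l2
    have a1 : |sM w * φ w| ≤ e * b0 w := by
      rw [b0, ← div_eq_mul_inv, le_div_iff₀' (wt_pos w _)]; exact he w
    have a2 : |φ w * (sM (pw v w o) - sM w)| ≤ K * Ks * r * b0 w :=
      (abs_mul_le_b0 (Hφ.1 w) l2).trans (le_of_eq (by ring))
    have a3 : |sM w * (φ (pw v w o) - φ w)| ≤ K * Ks * r * b0 w :=
      (abs_mul_le_b0 (HS.1 w) l1).trans (le_of_eq (by ring))
    have a4 : |(φ (pw v w o) - φ w) * (sM (pw v w o) - sM w)| ≤ K * Ks * r * b0 w := by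
      refine (abs_mul_le_b0 l1 l2).trans (mul_le_mul_of_nonneg_right ?_ hb.le)
      nlinarith [mul_nonneg (mul_nonneg hKK hr0) (sub_nonneg.2 hr1.le)]
    have a5 : b0 w ≤ 4 ^ pN * b0 (pw v w o) := by
      rw [b0, b0, ← div_eq_mul_inv, inv_eq_one_div, div_le_div_iff₀ (wt_pos _ _) (wt_pos _ _),
        one_mul, show (4 : ℝ) = 2 ^ 2 by norm_num, ← pow_mul, ← mul_pow]
      gcongr
      exact wt_le_two_mul (by rw [norm_sub_rev, e3]; exact hr1.le)
    have a6 := mul_le_mul_of_nonneg_left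
      (near_alg (f := f v) (f' := f (pv v w o)) (h := h v) (h' := h (pv v w o)) a1 a2 a3 a4) hk
    have a7 := mul_le_mul_of_nonneg_left a5 (show 0 ≤ 2 * (K * Ks) * (k * r) *
      (f (pv v w o) ^ 2 + h (pv v w o) ^ 2) by positivity)
    have a8 := mul_le_mul_of_nonneg_left h4 (show 0 ≤ 2 * (K * Ks) * (k * r) * b0 w *
      (f v ^ 2 + h v ^ 2) by positivity)
    refine a6.trans ?_
    linarith
  · rw [if_neg hr1, if_neg hr1, min_eq_left (not_lt.1 hr1)]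
    have s1 := sq_le_b0 (Hφ.1 w)
    have s2 := sq_le_b0 (Hφ.1 (pw v w o))
    have s3 := sq_le_b0 (HS.1 w)
    have s4 := sq_le_b0 (HS.1 (pw v w o))
    have a6 := mul_le_mul_of_nonneg_left
      (far_alg (f := f v) (f' := f (pv v w o)) (h := h v) (h' := h (pv v w o)) hKK
        (abs_mul_le_b0 (Hφ.1 w) (HS.1 w)) (abs_mul_le_b0 (Hφ.1 (pw v w o)) (HS.1 (pw v w o)))
        (by rw [mul_pow]
            exact (mul_le_mul s1 s4 (sq_nonneg _) ((sq_nonneg _).trans s1)).trans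
              (le_of_eq (by ring)))
        (by rw [mul_pow]
            exact (mul_le_mul s2 s3 (sq_nonneg _) ((sq_nonneg _).trans s2)).trans
              (le_of_eq (by ring)))
        hb.le hb'.le) hk
    have a8 := mul_le_mul_of_nonneg_left (show (1 : ℝ) ≤ 2 * 4 ^ pN by linarith)
      (show 0 ≤ k * (K * Ks * (b0 w * (f v ^ 2 + h v ^ 2) +
        b0 (pw v w o) * (f (pv v w o) ^ 2 + h (pv v w o) ^ 2))) from
        mul_nonneg hk (mul_nonneg hKK (add_nonneg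
          (mul_nonneg hb.le (add_nonneg (sq_nonneg _) (sq_nonneg _)))
          (mul_nonneg hb'.le (add_nonneg (sq_nonneg _) (sq_nonneg _))))))
    refine a6.trans ?_
    linarith

lemma NW_eq (Hf : Nice pN Kf f) : NW f = ENNReal.ofReal (∫ v, (1 + ‖v‖) ^ 2 * f v ^ 2) := by
  rw [ofReal_integral_eq_lintegral_ofReal (integrable_wt_sq Hf 2 (by norm_num))
    (ae_of_all _ fun v => by positivity), NW]
  simp only [Real.rpow_two]

theorem gd_of (h3 : C3Stmt) : ∃ C0 C1 : ℝ, 0 < C0 ∧ 0 < C1 ∧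
    ∀ (φ f h : E → ℝ) (e K Kf Kh : ℝ), Nice pN K φ → Nice pN Kf f → Nice pN Kh h →
      (∀ w, (1 + ‖w‖) ^ (2 * pN) * |sM w * φ w| ≤ e) →
      |∫ v, Gam φ f v * h v| ≤ C0 * e * ((Dis f + ∫ v, f v ^ 2) + (Dis h + ∫ v, h v ^ 2)) +
        C1 * K * ((∫ v, (1 + ‖v‖) ^ 2 * f v ^ 2) + ∫ v, (1 + ‖v‖) ^ 2 * h v ^ 2) := by
  obtain ⟨C, hC, h3⟩ := NL_le h3
  obtain ⟨c, hc, h2⟩ := exists_T2
  obtain ⟨Ks, HS⟩ : ∃ Ks, Nice pN Ks sM := ⟨_, nice_sM pN⟩
  have hKs := HS.nonneg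
  have hW := cW_pos
  refine ⟨c * C, 4 * 4 ^ pN * (Ks + 1) * cW, by positivity, by positivity,
    fun φ f h e K Kf Kh Hφ Hf Hh he => ?_⟩
  have he0 : 0 ≤ e := le_trans (by positivity) (he 0)
  have hK := Hφ.nonneg
  have i1 : ∀ (g : E → ℝ) (Kg : ℝ), Nice pN Kg g → Integrable (T1 g) mu3 ∧
      ∫ p, T1 g p ∂mu3 ≤ cW * ∫ v, (1 + ‖v‖) ^ 2 * g v ^ 2 := by
    intro g Kg Hg
    have h5 := lintegral_T1_le Hg.measurable
    rw [NW_eq Hg, ← ENNReal.ofReal_mul hW.le] at h5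
    have h6 : Integrable (T1 g) mu3 := ⟨(measurable_T1 Hg.measurable).aestronglyMeasurable,
      (hasFiniteIntegral_iff_ofReal (ae_of_all _ (T1_nonneg g))).2
        (h5.trans_lt ENNReal.ofReal_lt_top)⟩
    refine ⟨h6, ?_⟩
    rwa [← ofReal_integral_eq_lintegral_ofReal h6 (ae_of_all _ (T1_nonneg g)),
      ENNReal.ofReal_le_ofReal_iff (mul_nonneg hW.le (integral_nonneg fun v => by positivity))] at h5
  have i2 : ∀ (g : E → ℝ) (Kg : ℝ), Nice pN Kg g → Integrable (T2 g) mu3 ∧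
      ∫ p, T2 g p ∂mu3 ≤ c * C * (Dis g + ∫ v, g v ^ 2) := by
    intro g Kg Hg
    have h5 := (h2 g Hg.measurable).trans (mul_le_mul_right (le_self_add.trans (h3 g Kg Hg)) _)
    rw [← ENNReal.ofReal_mul hc.le, ← mul_assoc] at h5
    have h6 : Integrable (T2 g) mu3 := ⟨(measurable_T2 Hg.measurable).aestronglyMeasurable,
      (hasFiniteIntegral_iff_ofReal (ae_of_all _ (T2_nonneg g))).2
        (h5.trans_lt ENNReal.ofReal_lt_top)⟩
    refine ⟨h6, ?_⟩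
    rwa [← ofReal_integral_eq_lintegral_ofReal h6 (ae_of_all _ (T2_nonneg g)),
      ENNReal.ofReal_le_ofReal_iff (mul_nonneg (by positivity) (add_nonneg (Dis_nonneg g)
        (integral_nonneg fun _ => sq_nonneg _)))] at h5
  obtain ⟨j1, k1⟩ := i1 f _ Hf
  obtain ⟨j2, k2⟩ := i1 h _ Hh
  obtain ⟨j3, k3⟩ := i2 f _ Hf
  obtain ⟨j4, k4⟩ := i2 h _ Hh
  have j5 : Integrable (fun p => T2 f p + T2 h p) mu3 := j3.add j4
  have j6 : Integrable (fun p => T1 f p + T1 h p) mu3 := j1.add j2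
  have j7 : Integrable (fun p => T1 f p + T1 h p + T1 f (coll p)) mu3 := j6.add (Integrable.coll j1)
  have j8 : Integrable (fun p => T1 f p + T1 h p + T1 f (coll p) + T1 h (coll p)) mu3 :=
    j7.add (Integrable.coll j2)
  have h5 := norm_integral_le_of_norm_le ((j5.const_mul e).add (j8.const_mul (2 * 4 ^ pN * (K * Ks))))
    (ae_of_all _ fun p => (Real.norm_eq_abs _).trans_le (gd_point Hφ HS he f h p))
  simp only [Pi.add_apply] at h5
  rw [integral_add (j5.const_mul _) (j8.const_mul _), integral_const_mul, integral_const_mul,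
    integral_add j3 j4, integral_add j7 (Integrable.coll j2), integral_add j6 (Integrable.coll j1),
    integral_add j1 j2, integral_coll, integral_coll, Real.norm_eq_abs] at h5
  rw [integral_Gam_sym Hφ Hf Hh, abs_mul, abs_neg, abs_of_pos (by norm_num)]
  have h6 := mul_le_mul_of_nonneg_left (add_le_add k3 k4) he0
  have h7 := mul_le_mul_of_nonneg_left (add_le_add k1 k2)
    (show 0 ≤ 4 * 4 ^ pN * (K * Ks) by positivity)
  have h8 : 0 ≤ 4 * 4 ^ pN * cW * K * ((∫ v, (1 + ‖v‖) ^ 2 * f v ^ 2) +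
      ∫ v, (1 + ‖v‖) ^ 2 * h v ^ 2) := mul_nonneg (by positivity) (add_nonneg
        (integral_nonneg fun v => by positivity) (integral_nonneg fun v => by positivity))
  have h9 := abs_nonneg (∫ q, ker3 q * Inc (fun v w => f v * φ w) q *
    Inc (fun v w => h v * sM w) q ∂mu3)
  linarith

lemma nice_nA1 (p : ℕ) :
    ∃ C : ℝ, 0 < C ∧ ∀ f : SV, Nice p (C * √(nA (p + dd + 1) f)) f := by
  obtain ⟨C, hC, h⟩ := weighted_le_nA p
  refine ⟨2 ^ p * C, by positivity, fun f => ?_⟩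
  rw [mul_assoc]
  refine nice_of_fderiv f.differentiable (fun v => (h f v).1.trans ?_) fun v => (h f v).2
  gcongr
  exact nA_mono (by omega) f

lemma ip_GamS (g h f : SV) : ip (GamS g h) f = ∫ v, Gam g h v * f v := by simp [ip_def]

/-- the field `tri1` of the collision interface -/
theorem tri1_SV (h3 : C3Stmt) : ∃ C : ℝ, 0 < C ∧ ∀ a f g : SV,
    |ip (GamS a f) g| ≤
      C * √(nA (pN + dd + 1) a) * √(ip (LS f) f + ip f f) * √(ip (LS g) g + ip g g) := by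
  obtain ⟨C, hC, ht⟩ := tri1_of h3
  obtain ⟨C', hC', hn⟩ := nice_nA1 pN
  refine ⟨C * C', by positivity, fun a f g => ?_⟩
  rw [ip_GamS, ip_LS_self, ip_LS_self, ip_self_eq, ip_self_eq, mul_assoc C]
  exact ht a f g _ _ _ (hn a) (hn f) (hn g)

/-- only the weighted supremum of `sqM * a` multiplies the dissipation -/
theorem gd_SV (h3 : C3Stmt) : ∃ C0 C1 : ℝ, 0 < C0 ∧ 0 < C1 ∧ ∀ (a f g : SV) (e : ℝ),
    (∀ w, (1 + ‖w‖) ^ (2 * pN) * |sqM w * a w| ≤ e) →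
    |ip (GamS a f) g| ≤ C0 * e * ((ip (LS f) f + ip f f) + (ip (LS g) g + ip g g)) +
      C1 * √(nA (pN + dd + 1) a) *
        ((∫ v, (1 + ‖v‖) ^ 2 * f v ^ 2) + ∫ v, (1 + ‖v‖) ^ 2 * g v ^ 2) := by
  obtain ⟨C0, C1, h0, h1, ht⟩ := gd_of h3
  obtain ⟨C', hC', hn⟩ := nice_nA1 pN
  refine ⟨C0, C1 * C', h0, by positivity, fun a f g e he => ?_⟩
  rw [ip_GamS, ip_LS_self, ip_LS_self, ip_self_eq, ip_self_eq, mul_assoc C1]
  exact ht a f g e _ _ _ (hn a) (hn f) (hn g) he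

end Pool.Agent.BoltzM.Coll
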