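import Pool.Agent.BoltzM.Coll.Sigma
import Pool.Agent.BoltzM.Spec.Bg

/-!
The collision operator for functions with polynomial decay: pointwise bound and the two forms.
-/

open MeasureTheory Real Set
open scoped ENNReal RealInnerProductSpace

noncomputable section

namespace Pool.Agent.BoltzM.Coll

variable [Dim]

open Stmt

variable {a b p : ℕ} {Kg Kh : ℝ} {g h : E → ℝ}

lemma wt_le_coll' (v w : E) (o : S2) : 1 + ‖w‖ ≤ (1 + ‖pv v w o‖) * (1 + ‖pw v w o‖) := by
  have h1 := energy v w o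
  have h2 : ‖w‖ ≤ ‖pv v w o‖ + ‖pw v w o‖ := by
    refine (pow_le_pow_iff_left₀ (norm_nonneg _) (by positivity) two_ne_zero).1 ?_
    nlinarith [norm_nonneg (pv v w o), norm_nonneg (pw v w o), sq_nonneg ‖v‖]
  nlinarith [norm_nonneg (pv v w o), norm_nonneg (pw v w o)]

/-- the increment of g(v_*) h(v) with decay in both variables -/
lemma inc_bound_two (Hg : Nice (a + b) Kg g) (Hh : Nice (a + b) Kh h) (v w : E) (o : S2) :
    (1 + ‖v‖) ^ a * (1 + ‖w‖) ^ b * |g (pw v w o) * h (pv v w o) - g w * h v|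
      ≤ 2 ^ (a + 1) * Kg * Kh * min 1 |⟪v - w, (o : E)⟫| := by
  have hKg := Hg.nonneg
  have hKh := Hh.nonneg
  have Hg' : Nice b Kg g := Hg.mono (by omega)
  have Hh' : Nice a Kh h := Hh.mono (by omega)
  have h2p : (1 : ℝ) ≤ 2 ^ a := one_le_pow₀ one_le_two
  by_cases hr : |⟪v - w, (o : E)⟫| ≤ 1
  · rw [min_eq_right hr]
    set r := |⟪v - w, (o : E)⟫| with hrd
    have hr0 : 0 ≤ r := abs_nonneg _
    have e1 : ‖pv v w o - v‖ = r := norm_pv_sub v w o
    have e2 : ‖pw v w o - w‖ = r := norm_pw_sub v w o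
    have a1 : (1 + ‖w‖) ^ b * |g (pw v w o) - g w| ≤ Kg * r := by
      simpa [e2] using Hg'.lip' w (pw v w o) (e2 ▸ hr)
    have a2 : (1 + ‖v‖) ^ a * |h (pv v w o)| ≤ 2 ^ a * Kh := by
      calc (1 + ‖v‖) ^ a * |h (pv v w o)| ≤ (2 * (1 + ‖pv v w o‖)) ^ a * |h (pv v w o)| := by
            gcongr; exact wt_le_two_mul (e1 ▸ hr)
        _ = 2 ^ a * ((1 + ‖pv v w o‖) ^ a * |h (pv v w o)|) := by rw [mul_pow]; ring
        _ ≤ _ := by gcongr; exact Hh'.1 _
    have a3 : (1 + ‖v‖) ^ a * |h (pv v w o) - h v| ≤ Kh * r := by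
      simpa [e1] using Hh'.lip' v (pv v w o) (e1 ▸ hr)
    have a4 := Hg'.1 w
    calc (1 + ‖v‖) ^ a * (1 + ‖w‖) ^ b * |g (pw v w o) * h (pv v w o) - g w * h v|
        = (1 + ‖v‖) ^ a * (1 + ‖w‖) ^ b *
          |(g (pw v w o) - g w) * h (pv v w o) + g w * (h (pv v w o) - h v)| := by
          congr 2; ring
      _ ≤ (1 + ‖v‖) ^ a * (1 + ‖w‖) ^ b *
          (|g (pw v w o) - g w| * |h (pv v w o)| + |g w| * |h (pv v w o) - h v|) := by
          gcongr; rw [← abs_mul, ← abs_mul]; exact abs_add_le _ _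
      _ = (1 + ‖w‖) ^ b * |g (pw v w o) - g w| * ((1 + ‖v‖) ^ a * |h (pv v w o)|)
          + (1 + ‖w‖) ^ b * |g w| * ((1 + ‖v‖) ^ a * |h (pv v w o) - h v|) := by ring
      _ ≤ (Kg * r) * (2 ^ a * Kh) + Kg * (Kh * r) := by gcongr
      _ ≤ (Kg * r) * (2 ^ a * Kh) + 2 ^ a * (Kg * (Kh * r)) := by
          exact add_le_add le_rfl (le_mul_of_one_le_left (by positivity) h2p)
      _ = _ := by ring
  · rw [min_eq_left (not_le.1 hr).le]
    have a1 : (1 + ‖v‖) ^ a * (1 + ‖w‖) ^ b * (|g (pw v w o)| * |h (pv v w o)|) ≤ Kg * Kh := by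
      calc (1 + ‖v‖) ^ a * (1 + ‖w‖) ^ b * (|g (pw v w o)| * |h (pv v w o)|)
          ≤ ((1 + ‖pv v w o‖) * (1 + ‖pw v w o‖)) ^ a * ((1 + ‖pv v w o‖) * (1 + ‖pw v w o‖)) ^ b *
            (|g (pw v w o)| * |h (pv v w o)|) := by
            gcongr
            exacts [wt_le_coll v w o, wt_le_coll' v w o]
        _ = ((1 + ‖pw v w o‖) ^ (a + b) * |g (pw v w o)|) *
            ((1 + ‖pv v w o‖) ^ (a + b) * |h (pv v w o)|) := by
            rw [← pow_add, mul_pow]; ring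
        _ ≤ _ := by gcongr; exacts [Hg.1 _, Hh.1 _]
    have a2 : (1 + ‖w‖) ^ b * |g w| * ((1 + ‖v‖) ^ a * |h v|) ≤ Kg * Kh := by
      gcongr; exacts [Hg'.1 _, Hh'.1 _]
    calc (1 + ‖v‖) ^ a * (1 + ‖w‖) ^ b * |g (pw v w o) * h (pv v w o) - g w * h v|
        ≤ (1 + ‖v‖) ^ a * (1 + ‖w‖) ^ b * (|g (pw v w o)| * |h (pv v w o)| + |g w| * |h v|) := by
          gcongr; rw [← abs_mul, ← abs_mul]; exact abs_sub _ _
      _ = (1 + ‖v‖) ^ a * (1 + ‖w‖) ^ b * (|g (pw v w o)| * |h (pv v w o)|) +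
          (1 + ‖w‖) ^ b * |g w| * ((1 + ‖v‖) ^ a * |h v|) := by ring
      _ ≤ Kg * Kh + Kg * Kh := add_le_add a1 a2
      _ = 1 * 2 * Kg * Kh * 1 := by ring
      _ ≤ 2 ^ a * 2 * Kg * Kh * 1 := by gcongr
      _ = _ := by ring

theorem lintegral_one_le (Hg : Nice (p + (dd + 32)) Kg g) (Hh : Nice (p + (dd + 32)) Kh h) (v : E) :
    ∫⁻ q, ‖triI (fun _ => 1) g h v q‖ₑ ∂mu2
      ≤ ENNReal.ofReal (cW * 2 ^ (p + 3) * Kg * Kh / (1 + ‖v‖) ^ p) := by
  have hg := Hg.nonneg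
  have hh := Hh.nonneg
  have hc := cW_pos
  rw [show p + (dd + 32) = p + 2 + (dd + 30) by omega] at Hg Hh
  calc _ ≤ ∫⁻ q : E × S2, ENNReal.ofReal (2 ^ (p + 3) * Kg * Kh / (1 + ‖v‖) ^ (p + 2)) *
        ENNReal.ofReal (ker (v - q.1) q.2 * min 1 |⟪v - q.1, (q.2 : E)⟫| *
          |((1 + ‖q.1‖) ^ (dd + 30))⁻¹|) ∂mu2 := by
        refine lintegral_mono fun q => ?_
        rw [← ENNReal.ofReal_mul (by positivity), Real.enorm_eq_ofReal_abs]
        refine ENNReal.ofReal_le_ofReal ?_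
        have h1 := inc_bound_two Hg Hh v q.1 q.2
        rw [← le_div_iff₀' (mul_pos (wt_pos v _) (wt_pos q.1 _))] at h1
        have h2 := ker_nonneg (v - q.1) q.2
        rw [triI, mul_one, abs_mul, abs_of_nonneg h2, abs_of_pos (inv_pos.2 (wt_pos q.1 _))]
        refine (mul_le_mul_of_nonneg_left h1 h2).trans (le_of_eq ?_)
        field_simp
    _ ≤ ENNReal.ofReal (2 ^ (p + 3) * Kg * Kh / (1 + ‖v‖) ^ (p + 2)) *
        ENNReal.ofReal (cW * 1 * (1 + ‖v‖) ^ (2 : ℝ)) := by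
        rw [lintegral_const_mul _ (by fun_prop)]
        gcongr
        exact lintegral_ker_min_le (a := fun w => ((1 + ‖w‖) ^ (dd + 30))⁻¹) (by fun_prop)
          (fun w => by rw [abs_of_pos (inv_pos.2 (wt_pos w _)), mul_inv_cancel₀ (wt_pos w _).ne']) v
    _ = _ := by
        rw [← ENNReal.ofReal_mul (by positivity), Real.rpow_two]
        congr 1
        field_simp
        ring

theorem integrable_one_wt (Hg : Nice (p + (dd + 32)) Kg g) (Hh : Nice (p + (dd + 32)) Kh h) (v : E) :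
    Integrable (triI (fun _ => 1) g h v) mu2 :=
  ⟨(measurable_triI' measurable_const Hg.measurable Hh.measurable v).aestronglyMeasurable,
    (lintegral_one_le Hg Hh v).trans_lt ENNReal.ofReal_lt_top⟩

theorem abs_one_le (Hg : Nice (p + (dd + 32)) Kg g) (Hh : Nice (p + (dd + 32)) Kh h) (v : E) :
    (1 + ‖v‖) ^ p * |Tri (fun _ => 1) g h v| ≤ cW * 2 ^ (p + 3) * Kg * Kh := by
  have hg := Hg.nonneg
  have hh := Hh.nonneg
  have hc := cW_pos
  rw [← le_div_iff₀' (wt_pos v p), ← ENNReal.ofReal_le_ofReal_iff (by positivity),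
    ← Real.enorm_eq_ofReal_abs]
  exact (enorm_integral_le_lintegral_enorm _).trans (lintegral_one_le Hg Hh v)

lemma jac_mul_cI_one (f : E → ℝ) (v : E) (q : E × S2) :
    jac v q * cI f v (sgm v q) = triI (fun _ => 1) f f v q := by
  have h := jac_mul_cI (fun x => (sM x)⁻¹ * f x) v q
  have e : (fun x => sM x * ((sM x)⁻¹ * f x)) = f := funext fun x =>
    mul_inv_cancel_left₀ (sM_pos x).ne' _
  rw [e] at h
  rw [h]
  have e5 := sM_pv_mul v q.1 q.2
  have h1 := (sM_pos v).ne'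
  have h2 := (sM_pos q.1).ne'
  have h3 := (sM_pos (pv v q.1 q.2)).ne'
  have h4 := (sM_pos (pw v q.1 q.2)).ne'
  simp only [triI]
  have e6 : sM v * sM q.1 * ((sM (pw v q.1 q.2))⁻¹ * (sM (pv v q.1 q.2))⁻¹) = 1 := by
    rw [← e5]; field_simp
  have e7 : sM v * sM q.1 * ((sM q.1)⁻¹ * (sM v)⁻¹) = 1 := by field_simp
  linear_combination ker (v - q.1) q.2 * f (pw v q.1 q.2) * f (pv v q.1 q.2) * e6
    - ker (v - q.1) q.2 * f q.1 * f v * e7

/-- the operator of the statement in the omega form -/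
theorem sigma_one (Hg : Nice (dd + 32) Kg g) (v : E) :
    Integrable (collInt (Bk dd) g v) (collMeas dd) ∧ Q (Bk dd) g v = Tri (fun _ => 1) g g v := by
  have hi : Measurable fun q : E × S2 => (q.1, (q.2 : E)) := by fun_prop
  have hm := measurable_cI Hg.measurable v
  have hj := measurable_jac v
  have hj0 : ∀ q, 0 ≤ jac v q := fun q => by unfold jac; positivity
  have e : ∀ q, (ENNReal.ofReal (jac v q)).toReal • cI g v (sgm v q)
      = triI (fun _ => 1) g g v q := fun q => by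
    rw [ENNReal.toReal_ofReal (hj0 q), smul_eq_mul]; exact jac_mul_cI_one g v q
  constructor
  · change Integrable (cI g v ∘ fun q : E × S2 => (q.1, (q.2 : E))) mu2
    rw [← integrable_map_measure hm.aestronglyMeasurable hi.aemeasurable, map_sgm v,
      integrable_map_measure hm.aestronglyMeasurable (measurable_sgm v).aemeasurable,
      integrable_withDensity_iff_integrable_smul' hj.ennreal_ofReal
        (ae_of_all _ fun _ => ENNReal.ofReal_lt_top)]
    have Hg' : Nice (0 + (dd + 32)) Kg g := by rwa [zero_add]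
    exact (integrable_one_wt Hg' Hg' v).congr (ae_of_all _ fun q => (e q).symm)
  · change ∫ q : E × S2, cI g v (q.1, (q.2 : E)) ∂mu2 = _
    rw [← integral_map hi.aemeasurable hm.aestronglyMeasurable, map_sgm v,
      integral_map (measurable_sgm v).aemeasurable hm.aestronglyMeasurable,
      integral_withDensity_eq_integral_toReal_smul hj.ennreal_ofReal
        (ae_of_all _ fun _ => ENNReal.ofReal_lt_top)]
    simp only [e]
    rfl

theorem triOne : Pool.Agent.BoltzM.TriStmt :=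
  ⟨dd + 32, fun p => ⟨cW * 2 ^ (p + 3), mul_pos cW_pos (by positivity),
    fun _ _ _ _ Hg Hh v => ⟨integrable_one_wt Hg Hh v, abs_one_le Hg Hh v⟩⟩,
    fun _ _ Hg v => sigma_one Hg v⟩

end Pool.Agent.BoltzM.Coll
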