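import Pool.Agent.BoltzM.Coll.Geom

/-!
The change of variables from sigma to omega on the sphere.
-/

open MeasureTheory Real Set
open scoped ENNReal RealInnerProductSpace

noncomputable section

namespace Pool.Agent.BoltzM.Coll

variable [Dim]

/-- the homogeneous extension of omega to sigma -/
def psi (e x : E) : E := ‖x‖ • e - (2 * ⟪e, x⟫ * ‖x‖⁻¹) • x

/-- its derivative -/
def dpsi (e n : E) : E →L[ℝ] E :=
  (innerSL ℝ n).smulRight e - (2 : ℝ) • (innerSL ℝ e).smulRight n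
    + (2 * ⟪e, n⟫) • (innerSL ℝ n).smulRight n - (2 * ⟪e, n⟫) • ContinuousLinearMap.id ℝ E

lemma det_dpsi {e n : E} (he : ‖e‖ = 1) (hn : ‖n‖ = 1) (h0 : ⟪e, n⟫ ≠ 0) :
    (dpsi e n).det = 2 * (-2 * ⟪e, n⟫) ^ (dd - 2) := by
  have hE : ∑ i, e i * e i = 1 := by
    have := EuclideanSpace.real_norm_sq_eq e
    rw [he] at this
    simpa [sq] using this.symm
  have hN : ∑ i, n i * n i = 1 := by
    have := EuclideanSpace.real_norm_sq_eq n
    rw [hn] at this
    simpa [sq] using this.symm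
  have ht : ∑ i, n i * e i = ⟪e, n⟫ := by simp [PiLp.inner_apply]
  have ht' : ∑ i, e i * n i = ⟪e, n⟫ := by simp only [← ht, mul_comm]
  set t := ⟪e, n⟫ with htt
  let U : Matrix Ix (Fin 2) ℝ :=
    Matrix.of fun i k => ![(-2 * t)⁻¹ * e i - n i, t⁻¹ * n i] k
  let V : Matrix (Fin 2) Ix ℝ := Matrix.of fun k j => ![n j, e j] k
  have hM : LinearMap.toMatrix (EuclideanSpace.basisFun Ix ℝ).toBasis
      (EuclideanSpace.basisFun Ix ℝ).toBasis (dpsi e n : E →ₗ[ℝ] E) =
      (-2 * t) • (1 + U * V) := by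
    ext i j
    rw [LinearMap.toMatrix_apply]
    simp [dpsi, EuclideanSpace.inner_single_right, U, V, Matrix.mul_apply, Matrix.one_apply, ← htt]
    split_ifs <;> field_simp <;> ring
  have a1 : (V * U) 0 0 = -(3 / 2) := by
    simp only [U, V, Matrix.mul_apply, Matrix.of_apply, Matrix.cons_val_zero, mul_sub,
      Finset.sum_sub_distrib, mul_left_comm _ (-2 * t)⁻¹, ← Finset.mul_sum, hN, ht]
    field_simp; ring
  have a2 : (V * U) 0 1 = t⁻¹ := by
    simp only [U, V, Matrix.mul_apply, Matrix.of_apply, Matrix.cons_val_zero, Matrix.cons_val_one,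
      mul_left_comm _ t⁻¹, ← Finset.mul_sum, hN, mul_one]
  have a3 : (V * U) 1 0 = (-2 * t)⁻¹ - t := by
    simp only [U, V, Matrix.mul_apply, Matrix.of_apply, Matrix.cons_val_zero, Matrix.cons_val_one,
      mul_sub, Finset.sum_sub_distrib, mul_left_comm _ (-2 * t)⁻¹, ← Finset.mul_sum, hE, ht',
      mul_one]
  have a4 : (V * U) 1 1 = 1 := by
    simp only [U, V, Matrix.mul_apply, Matrix.of_apply, Matrix.cons_val_zero, Matrix.cons_val_one,
      mul_left_comm _ t⁻¹, ← Finset.mul_sum, ht', inv_mul_cancel₀ h0]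
  rw [ContinuousLinearMap.det,
    ← LinearMap.det_toMatrix (EuclideanSpace.basisFun Ix ℝ).toBasis, hM, Matrix.det_smul,
    Matrix.det_one_add_mul_comm, Matrix.det_fin_two]
  simp only [Matrix.add_apply, a1, a2, a3, a4, Fintype.card_fin]
  rw [show dd = dd - 2 + 2 by have := two_le_dd; omega, pow_add, Nat.add_sub_cancel]
  simp
  field_simp; ring

lemma hasFDerivAt_psi (e : E) {x : E} (hx : x ≠ 0) :
    HasFDerivAt (psi e) (dpsi e (‖x‖⁻¹ • x)) x := by
  have h0 : 0 < ‖x‖ := norm_pos_iff.2 hx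
  have hn : HasFDerivAt (fun y : E => ‖y‖) (innerSL ℝ (‖x‖⁻¹ • x)) x := by
    have h1 := (hasStrictFDerivAt_norm_sq x).hasFDerivAt.sqrt (by positivity)
    simp only [Real.sqrt_sq (norm_nonneg _)] at h1
    refine h1.congr_fderiv ?_
    ext h
    simp
    field_simp
  have hi := (hasDerivAt_inv h0.ne').comp_hasFDerivAt x hn
  have h2 := (hn.smul_const e).sub
    (((((innerSL ℝ e).hasFDerivAt (x := x)).const_mul 2).mul hi).smul (hasFDerivAt_id x))
  refine HasFDerivAt.congr_fderiv h2 ?_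
  refine ContinuousLinearMap.ext fun h => ?_
  simp [dpsi, inner_smul_right, smul_smul, add_smul]
  match_scalars <;> (field_simp; try ring)

lemma norm_psi {e : E} (he : ‖e‖ = 1) (x : E) : ‖psi e x‖ = ‖x‖ := by
  rcases eq_or_ne x 0 with rfl | hx
  · simp [psi]
  have h0 : 0 < ‖x‖ := norm_pos_iff.2 hx
  refine (sq_eq_sq₀ (norm_nonneg _) (norm_nonneg _)).1 ?_
  rw [psi, norm_sub_sq_real, inner_smul_left, inner_smul_right, norm_smul, norm_smul, he]
  simp only [conj_trivial, Real.norm_eq_abs, mul_pow, sq_abs]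
  field_simp; ring

lemma psi_injOn {e : E} (he : ‖e‖ = 1) : InjOn (psi e) {x | 0 < ⟪e, x⟫} := by
  intro x hx y hy h
  have hx' : 0 < ⟪e, x⟫ := hx
  have hy' : 0 < ⟪e, y⟫ := hy
  have h0 : 0 < ‖x‖ := norm_pos_iff.2 (by rintro rfl; simp at hx')
  have h1 : ‖x‖ = ‖y‖ := by rw [← norm_psi he x, h, norm_psi he]
  rw [psi, psi, ← h1, sub_right_inj] at h
  have h2 := congrArg (fun z => ⟪e, z⟫) h
  simp only [inner_smul_right] at h2
  have h3 : ⟪e, x⟫ = ⟪e, y⟫ := by
    refine (sq_eq_sq₀ hx'.le hy'.le).1 ?_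
    field_simp at h2
    linarith
  rw [← h3] at h
  exact smul_right_injective E (by positivity) h

lemma psi_surj {e : E} (he : ‖e‖ = 1) {y : E} (hy : y ∉ (ℝ ∙ e)) :
    ∃ x, 0 < ⟪e, x⟫ ∧ psi e x = y := by
  have h0 : 0 < ‖y‖ := norm_pos_iff.2 (by rintro rfl; exact hy (zero_mem _))
  set d := ‖y‖ • e - y with hd
  have hd0 : 0 < ‖d‖ := norm_pos_iff.2 fun h => hy (by
    rw [← sub_eq_zero.1 h]; exact Submodule.smul_mem _ _ (Submodule.mem_span_singleton_self e))
  have h1 : ‖d‖ ^ 2 = 2 * ‖y‖ * ⟪e, d⟫ := by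
    rw [hd, norm_sub_sq_real, inner_sub_right, inner_smul_left, inner_smul_right, norm_smul,
      real_inner_self_eq_norm_sq, he]
    simp; ring
  have h2 : ⟪e, (‖y‖ / ‖d‖) • d⟫ = ‖d‖ / 2 := by
    rw [inner_smul_right]; field_simp; linarith
  have h3 : ‖(‖y‖ / ‖d‖) • d‖ = ‖y‖ := by
    rw [norm_smul, Real.norm_of_nonneg (by positivity)]; field_simp
  refine ⟨(‖y‖ / ‖d‖) • d, by rw [h2]; positivity, ?_⟩
  rw [psi, h2, h3, smul_smul, show 2 * (‖d‖ / 2) * ‖y‖⁻¹ * (‖y‖ / ‖d‖) = 1 by field_simp, one_smul,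
    hd, sub_sub_cancel]

/-- sigma to omega -/
theorem lintegral_sigma_omega {e : E} (he : ‖e‖ = 1) (F : E → ℝ≥0∞) (hF : Measurable F) :
    ∫⁻ s, F s ∂sph = ∫⁻ o, ENNReal.ofReal ((2 * |⟪e, (o : E)⟫|) ^ (dd - 2)) *
      F (e - (2 * ⟪e, (o : E)⟫) • (o : E)) ∂sph := by
  set G : E → ℝ≥0∞ := fun o =>
    ENNReal.ofReal ((2 * |⟪e, o⟫|) ^ (dd - 2)) * F (e - (2 * ⟪e, o⟫) • o) with hG
  have hGm : Measurable G := Measurable.mul (by fun_prop) (hF.comp (by fun_prop))
  have hGm' : Measurable fun x : E => G (‖x‖⁻¹ • x) := hGm.comp (by fun_prop)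
  rw [lintegral_sph_eq_ball F hF, lintegral_sph_eq_ball G hGm]
  congr 1
  set s : Set E := Metric.ball 0 1 ∩ {x | 0 < ⟪e, x⟫} with hs
  have hsm : MeasurableSet s :=
    measurableSet_ball.inter (measurableSet_lt (by fun_prop) (by fun_prop))
  have hne : ∀ x ∈ s, x ≠ 0 := by
    rintro x ⟨-, hx⟩ rfl
    simp at hx
  have him : (psi e '' s : Set E) =ᵐ[volume] (Metric.ball 0 1 : Set E) := by
    have hnull : volume ((ℝ ∙ e : Submodule ℝ E) : Set E) = 0 := by
      refine Measure.addHaar_submodule _ _ fun h => ?_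
      have h1 := finrank_span_singleton (K := ℝ) (show e ≠ 0 by rintro rfl; simp at he)
      rw [h] at h1
      have := two_le_dd
      simp at h1
      omega
    filter_upwards [compl_mem_ae_iff.2 hnull] with y hy
    refine propext ⟨?_, fun h => ?_⟩
    · rintro ⟨x, hx, rfl⟩
      change psi e x ∈ Metric.ball (0 : E) 1
      rw [mem_ball_zero_iff, norm_psi he]
      exact mem_ball_zero_iff.1 hx.1
    · obtain ⟨x, hx, rfl⟩ := psi_surj he hy
      refine ⟨x, ⟨?_, hx⟩, rfl⟩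
      rw [mem_ball_zero_iff, ← norm_psi he]
      exact mem_ball_zero_iff.1 h
  rw [← setLIntegral_congr him, lintegral_image_eq_lintegral_abs_det_fderiv_mul volume hsm
    (fun x hx => (hasFDerivAt_psi e (hne x hx)).hasFDerivWithinAt)
    ((psi_injOn he).mono inter_subset_right)]
  have h1 : ∀ x ∈ s, ENNReal.ofReal |(dpsi e (‖x‖⁻¹ • x)).det| * F (‖psi e x‖⁻¹ • psi e x)
      = 2 * G (‖x‖⁻¹ • x) := by
    intro x hx
    have h0 : 0 < ‖x‖ := norm_pos_iff.2 (hne x hx)
    have e2 : ∀ a : ℝ, 2 * ENNReal.ofReal a = ENNReal.ofReal (2 * a) := fun a => by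
      rw [ENNReal.ofReal_mul (by norm_num)]; simp
    rw [det_dpsi he (by simp [norm_smul, h0.ne']) (by
      rw [inner_smul_right]; exact mul_ne_zero (inv_ne_zero h0.ne') (ne_of_gt hx.2)),
      norm_psi he, hG, ← mul_assoc, e2, abs_mul, abs_pow, abs_mul]
    congr 2
    · norm_num
    · rw [psi, inner_smul_right]
      match_scalars <;> field_simp
  rw [setLIntegral_congr_fun hsm h1, lintegral_const_mul _ hGm', two_mul,
    ← lintegral_indicator hsm, ← lintegral_indicator measurableSet_ball]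
  nth_rewrite 2 [← lintegral_neg_eq_self]
  rw [← lintegral_add_left (hGm'.indicator hsm)]
  have hz : volume (((ℝ ∙ e)ᗮ : Submodule ℝ E) : Set E) = 0 := by
    refine Measure.addHaar_submodule _ _ fun h => ?_
    have h1 : e ∈ (ℝ ∙ e)ᗮ := by rw [h]; trivial
    rw [Submodule.mem_orthogonal_singleton_iff_inner_right, real_inner_self_eq_norm_sq, he] at h1
    norm_num at h1
  refine lintegral_congr_ae ?_
  filter_upwards [compl_mem_ae_iff.2 hz] with x hx0
  have hev : G (‖-x‖⁻¹ • -x) = G (‖x‖⁻¹ • x) := by simp [hG]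
  by_cases hb : x ∈ Metric.ball (0 : E) 1
  · rw [indicator_of_mem hb]
    rcases lt_trichotomy 0 ⟪e, x⟫ with h | h | h
    · rw [indicator_of_mem (show x ∈ s from ⟨hb, h⟩), indicator_of_notMem, add_zero]
      rintro ⟨-, h'⟩
      simp only [mem_ofPred_eq, inner_neg_right] at h'
      linarith
    · exact absurd (Submodule.mem_orthogonal_singleton_iff_inner_right.2 h.symm) hx0
    · rw [indicator_of_notMem, indicator_of_mem (show -x ∈ s from
        ⟨by simpa using hb, by simpa using h⟩), zero_add, hev]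
      rintro ⟨-, h'⟩
      exact lt_asymm h h'
  · rw [indicator_of_notMem hb, indicator_of_notMem fun h => hb h.1,
      indicator_of_notMem fun h => hb (by simpa using h.1), add_zero]

end Pool.Agent.BoltzM.Coll
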